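import Mathlib

/-!
# A choice of blocks that all voters miss

Union bound: if every voter `j` has few full blocks and few touched blocks in each of `m`
independent places, then there is a choice of one block in every place such that no voter is full
on a chosen block and every voter touches fewer than `l` of the chosen blocks.
-/

set_option autoImplicit false

namespace Pool.Agent.Helper5.UV

open Finset

/-- The number of functions with prescribed ranges on a set of places. -/
theorem card_filter_forall_mem {B : Type*} [Fintype B] [DecidableEq B] {m : ℕ}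
    (I : Finset (Fin m)) (U : Fin m → Finset B) (u : ℝ) (hU : ∀ i, ((U i).card : ℝ) ≤ u) :
    (((univ : Finset (Fin m → B)).filter fun T => ∀ i ∈ I, T i ∈ U i).card : ℝ) ≤
      u ^ I.card * (Fintype.card B : ℝ) ^ (m - I.card) := by
  classical
  have h1 : ((univ : Finset (Fin m → B)).filter fun T => ∀ i ∈ I, T i ∈ U i) =
      Fintype.piFinset fun i => if i ∈ I then U i else univ := by
    ext T
    simp only [mem_filter, mem_univ, true_and, Fintype.mem_piFinset]
    refine forall_congr' fun i => ?_
    by_cases hi : i ∈ I <;> simp [hi]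
  rw [h1, Fintype.card_piFinset, Nat.cast_prod]
  have h2 : ∏ i : Fin m, (((if i ∈ I then U i else univ : Finset B).card : ℕ) : ℝ) ≤
      ∏ i : Fin m, (if i ∈ I then u else (Fintype.card B : ℝ)) := by
    refine prod_le_prod (fun i _ => Nat.cast_nonneg _) fun i _ => ?_
    by_cases hi : i ∈ I
    · simpa [hi] using hU i
    · simp [hi]
  refine h2.trans (le_of_eq ?_)
  rw [prod_ite, prod_const, prod_const]
  congr 2
  · congr 1
    ext i; simp
  · have : (univ.filter fun i : Fin m => i ∉ I) = Iᶜ := by ext i; simp
    rw [this, card_compl, Fintype.card_fin]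

/-- Union bound over the voters. -/
theorem exists_choice {B J : Type*} [Fintype B] [DecidableEq B] [Fintype J] (m l : ℕ)
    (U F : J → Fin m → Finset B) (u f : ℝ)
    (hU : ∀ j i, ((U j i).card : ℝ) ≤ u) (hF : ∀ j i, ((F j i).card : ℝ) ≤ f)
    (hB : 0 < Fintype.card B)
    (h : (Fintype.card J : ℝ) * (m * (f / Fintype.card B) +
      (m.choose l : ℝ) * (u / Fintype.card B) ^ l) < 1) :
    ∃ T : Fin m → B, ∀ j, (∀ i, T i ∉ F j i) ∧
      (univ.filter fun i => T i ∈ U j i).card < l := by
  classical
  by_contra hcon
  push Not at hcon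
  obtain ⟨b, hb⟩ : ∃ b : ℝ, b = (Fintype.card B : ℝ) := ⟨_, rfl⟩
  rw [← hb] at h
  have hb0 : 0 < b := by rw [hb]; exact_mod_cast hB
  -- the bad sets
  let X : J → Fin m → Finset (Fin m → B) := fun j i => univ.filter fun T => ∀ k ∈ ({i} : Finset (Fin m)), T k ∈ F j k
  let Y : J → Finset (Fin m) → Finset (Fin m → B) := fun j I => univ.filter fun T => ∀ k ∈ I, T k ∈ U j k
  have hcover : (univ : Finset (Fin m → B)) ⊆
      univ.biUnion fun j : J => (univ.biUnion fun i => X j i) ∪
        ((powersetCard l univ).biUnion fun I => Y j I) := by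
    intro T _
    obtain ⟨j, hj⟩ := hcon T
    rw [mem_biUnion]
    refine ⟨j, mem_univ _, ?_⟩
    rw [mem_union]
    by_cases h1 : ∀ i, T i ∉ F j i
    · right
      have h2 := hj h1
      obtain ⟨I, hI, hIl⟩ := exists_subset_card_eq h2
      rw [mem_biUnion]
      refine ⟨I, mem_powersetCard.2 ⟨subset_univ _, hIl⟩, ?_⟩
      simp only [Y, mem_filter, mem_univ, true_and]
      intro k hk
      exact (mem_filter.1 (hI hk)).2
    · left
      push Not at h1
      obtain ⟨i, hi⟩ := h1
      rw [mem_biUnion]
      refine ⟨i, mem_univ _, ?_⟩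
      simp only [X, mem_filter, mem_univ, true_and, mem_singleton]
      rintro k rfl
      exact hi
  have hcard := card_le_card hcover
  have hX : ∀ j i, ((X j i).card : ℝ) ≤ f / b * b ^ m := by
    intro j i
    have hm : 0 < m := i.pos
    have h1 := card_filter_forall_mem ({i} : Finset (Fin m)) (F j) f (hF j)
    refine h1.trans (le_of_eq ?_)
    rw [card_singleton, pow_one, ← hb]
    obtain ⟨m', rfl⟩ : ∃ m', m = m' + 1 := ⟨m - 1, by omega⟩
    rw [Nat.add_sub_cancel, pow_succ]
    field_simp
  have hY : ∀ j, ∀ I ∈ powersetCard l (univ : Finset (Fin m)), ((Y j I).card : ℝ) ≤ (u / b) ^ l * b ^ m := by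
    intro j I hI
    have hIl := (mem_powersetCard.1 hI).2
    have hlm : l ≤ m := by
      have := card_le_univ I
      rw [hIl, Fintype.card_fin] at this
      exact this
    have h1 := card_filter_forall_mem I (U j) u (hU j)
    refine h1.trans (le_of_eq ?_)
    rw [hIl, div_pow, ← hb]
    have : b ^ m = b ^ l * b ^ (m - l) := by rw [← pow_add]; congr 1; omega
    rw [this]
    field_simp
  have hbig : b ^ m ≤ ∑ j : J, ((∑ i : Fin m, f / b * b ^ m) +
      ∑ I ∈ powersetCard l (univ : Finset (Fin m)), (u / b) ^ l * b ^ m) := by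
    have h0 : ((univ : Finset (Fin m → B)).card : ℝ) = b ^ m := by
      rw [card_univ, Fintype.card_fun, Fintype.card_fin, hb]; push_cast; rfl
    rw [← h0]
    refine (Nat.cast_le.2 (hcard.trans card_biUnion_le)).trans ?_
    rw [Nat.cast_sum]
    refine sum_le_sum fun j _ => ?_
    refine (Nat.cast_le.2 (card_union_le _ _)).trans ?_
    rw [Nat.cast_add]
    refine add_le_add ?_ ?_
    · refine (Nat.cast_le.2 card_biUnion_le).trans ?_
      rw [Nat.cast_sum, h0]
      exact sum_le_sum fun i _ => hX j i
    · refine (Nat.cast_le.2 card_biUnion_le).trans ?_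
      rw [Nat.cast_sum, h0]
      exact sum_le_sum fun I hI => hY j I hI
  rw [sum_const, sum_const, sum_const, card_univ, card_univ, Fintype.card_fin,
    card_powersetCard, card_univ, Fintype.card_fin, nsmul_eq_mul, nsmul_eq_mul, nsmul_eq_mul] at hbig
  have hbm : 0 < b ^ m := pow_pos hb0 m
  have : (Fintype.card J : ℝ) * (m * (f / b) + (m.choose l : ℝ) * (u / b) ^ l) * b ^ m < 1 * b ^ m :=
    mul_lt_mul_of_pos_right h hbm
  nlinarith

end Pool.Agent.Helper5.UV
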