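import Mathlib
import Pool.Agent.Helper5.UV.Choice

/-!
# Triangles inside and at few edges of a complete tripartite graph
-/

set_option autoImplicit false

namespace Pool.Agent.Helper5.UV

open Finset

/-- The triangles all of whose edges are marked. -/
def inTri {X Y Z : Type*} [Fintype X] [Fintype Y] [Fintype Z] [DecidableEq X] [DecidableEq Y]
    [DecidableEq Z] (A : Finset (X × Y)) (B : Finset (Y × Z)) (C : Finset (Z × X)) :
    Finset (X × Y × Z) :=
  univ.filter fun t => (t.1, t.2.1) ∈ A ∧ (t.2.1, t.2.2) ∈ B ∧ (t.2.2, t.1) ∈ C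

/-- The triangles with at least one marked edge. -/
def atTri {X Y Z : Type*} [Fintype X] [Fintype Y] [Fintype Z] [DecidableEq X] [DecidableEq Y]
    [DecidableEq Z] (A : Finset (X × Y)) (B : Finset (Y × Z)) (C : Finset (Z × X)) :
    Finset (X × Y × Z) :=
  univ.filter fun t => (t.1, t.2.1) ∈ A ∨ (t.2.1, t.2.2) ∈ B ∨ (t.2.2, t.1) ∈ C

/-- The discrete Loomis-Whitney inequality. -/
theorem card_inTri_sq {X Y Z : Type*} [Fintype X] [Fintype Y] [Fintype Z] [DecidableEq X]
    [DecidableEq Y] [DecidableEq Z] (A : Finset (X × Y)) (B : Finset (Y × Z))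
    (C : Finset (Z × X)) :
    (inTri A B C).card ^ 2 ≤ A.card * (B.card * C.card) := by
  classical
  let d : X × Y → Finset Z := fun e => univ.filter fun z => (e.2, z) ∈ B ∧ (z, e.1) ∈ C
  have h1 : (inTri A B C).card = ∑ e ∈ A, (d e).card := by
    rw [← card_sigma]
    refine card_bij' (fun t _ => ⟨(t.1, t.2.1), t.2.2⟩) (fun s _ => (s.1.1, s.1.2, s.2)) ?_ ?_ ?_ ?_
    · intro t ht
      simp only [inTri, mem_filter, mem_univ, true_and] at ht
      simp only [mem_sigma, d, mem_filter, mem_univ, true_and]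
      exact ⟨ht.1, ht.2.1, ht.2.2⟩
    · intro s hs
      simp only [mem_sigma, d, mem_filter, mem_univ, true_and] at hs
      simp only [inTri, mem_filter, mem_univ, true_and]
      exact ⟨hs.1, hs.2.1, hs.2.2⟩
    · intro t _; rfl
    · intro s _; rfl
  have h2 : (∑ e ∈ A, (d e).card) ^ 2 ≤ A.card * ∑ e ∈ A, (d e).card ^ 2 :=
    sq_sum_le_card_mul_sum_sq
  have h3 : ∑ e ∈ A, (d e).card ^ 2 ≤ B.card * C.card := by
    have h4 : ∀ e, (d e).card ^ 2 = (d e ×ˢ d e).card := fun e => by rw [card_product, sq]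
    simp_rw [h4]
    rw [← card_sigma, ← card_product]
    refine card_le_card_of_injOn (fun s => ((s.1.2, s.2.1), (s.2.2, s.1.1))) ?_ ?_
    · rintro s hs
      simp only [coe_sigma, Set.mem_sigma_iff, mem_coe, mem_product, d, mem_filter, mem_univ,
        true_and] at hs
      simp only [coe_product, Set.mem_prod, mem_coe]
      exact ⟨hs.2.1.1, hs.2.2.2⟩
    · rintro ⟨⟨x, y⟩, z, z'⟩ _ ⟨⟨x', y'⟩, w, w'⟩ _ h
      simp only [Prod.mk.injEq] at h
      obtain ⟨⟨rfl, rfl⟩, rfl, rfl⟩ := h
      rfl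
  rw [h1]
  exact h2.trans (Nat.mul_le_mul_left _ h3)

/-- The number of triangles at the marked edges. -/
theorem card_atTri {X Y Z : Type*} [Fintype X] [Fintype Y] [Fintype Z] [DecidableEq X]
    [DecidableEq Y] [DecidableEq Z] (A : Finset (X × Y)) (B : Finset (Y × Z))
    (C : Finset (Z × X)) :
    (atTri A B C).card ≤
      A.card * Fintype.card Z + B.card * Fintype.card X + C.card * Fintype.card Y := by
  classical
  have h : atTri A B C ⊆
      ((A ×ˢ (univ : Finset Z)).image fun s => (s.1.1, s.1.2, s.2)) ∪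
      ((B ×ˢ (univ : Finset X)).image fun s => (s.2, s.1.1, s.1.2)) ∪
      ((C ×ˢ (univ : Finset Y)).image fun s => (s.1.2, s.2, s.1.1)) := by
    rintro ⟨x, y, z⟩ ht
    simp only [atTri, mem_filter, mem_univ, true_and] at ht
    simp only [mem_union, mem_image, mem_product, mem_univ, and_true, Prod.mk.injEq]
    rcases ht with h | h | h
    · exact Or.inl (Or.inl ⟨((x, y), z), h, rfl, rfl, rfl⟩)
    · exact Or.inl (Or.inr ⟨((y, z), x), h, rfl, rfl, rfl⟩)
    · exact Or.inr ⟨((z, x), y), h, rfl, rfl, rfl⟩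
  refine (card_le_card h).trans ((card_union_le _ _).trans (add_le_add
    ((card_union_le _ _).trans (add_le_add ?_ ?_)) ?_))
  · exact card_image_le.trans (by rw [card_product, card_univ])
  · exact card_image_le.trans (by rw [card_product, card_univ])
  · exact card_image_le.trans (by rw [card_product, card_univ])

/-- A choice of one triangle in each of `m` blocks: if every voter has at most `K` marked edges
in every block, then no chosen triangle is completely marked by a voter and every voter marks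
edges of fewer than `l` chosen triangles. -/
theorem exists_triangles {J : Type*} [Fintype J] (q m l : ℕ) (K : ℝ) (hq : 0 < q)
    (E : J → Fin m → Fin 3 → Finset (Fin q × Fin q))
    (hE : ∀ j i, (∑ p, ((E j i p).card : ℝ)) ≤ K)
    (h : (Fintype.card J : ℝ) * (m * (K ^ (3 / 2 : ℝ) / (q : ℝ) ^ 3) +
      (m.choose l : ℝ) * (K / (q : ℝ) ^ 2) ^ l) < 1) :
    ∃ T : Fin m → Fin q × Fin q × Fin q, ∀ j,
      (∀ i, ¬ (((T i).1, (T i).2.1) ∈ E j i 0 ∧ ((T i).2.1, (T i).2.2) ∈ E j i 1 ∧
        ((T i).2.2, (T i).1) ∈ E j i 2)) ∧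
      (univ.filter fun i => ((T i).1, (T i).2.1) ∈ E j i 0 ∨ ((T i).2.1, (T i).2.2) ∈ E j i 1 ∨
        ((T i).2.2, (T i).1) ∈ E j i 2).card < l := by
  classical
  have hq0 : (0 : ℝ) < q := by exact_mod_cast hq
  have hcardB : (Fintype.card (Fin q × Fin q × Fin q) : ℝ) = (q : ℝ) ^ 3 := by
    simp only [Fintype.card_prod, Fintype.card_fin]; push_cast; ring
  have key := exists_choice (B := Fin q × Fin q × Fin q) m l
    (fun j i => atTri (E j i 0) (E j i 1) (E j i 2))
    (fun j i => inTri (E j i 0) (E j i 1) (E j i 2)) (K * q) (K ^ (3 / 2 : ℝ)) ?_ ?_ ?_ ?_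
  · obtain ⟨T, hT⟩ := key
    refine ⟨T, fun j => ⟨fun i hi => (hT j).1 i ?_, ?_⟩⟩
    · simpa only [inTri, mem_filter, mem_univ, true_and] using hi
    · have := (hT j).2
      simpa only [atTri, mem_filter, mem_univ, true_and] using this
  · intro j i
    have h1 := card_atTri (E j i 0) (E j i 1) (E j i 2)
    rw [Fintype.card_fin] at h1
    have h2 := hE j i
    rw [Fin.sum_univ_three] at h2
    calc ((atTri (E j i 0) (E j i 1) (E j i 2)).card : ℝ)
        ≤ (((E j i 0).card * q + (E j i 1).card * q + (E j i 2).card * q : ℕ) : ℝ) := by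
          exact_mod_cast h1
      _ = (((E j i 0).card : ℝ) + (E j i 1).card + (E j i 2).card) * q := by push_cast; ring
      _ ≤ K * q := mul_le_mul_of_nonneg_right h2 hq0.le
  · intro j i
    have h1 := card_inTri_sq (E j i 0) (E j i 1) (E j i 2)
    have h2 := hE j i
    rw [Fin.sum_univ_three] at h2
    have hK : 0 ≤ K := le_trans (by positivity) h2
    have ha : ((E j i 0).card : ℝ) ≤ K := by
      have : (0 : ℝ) ≤ (E j i 1).card := Nat.cast_nonneg _
      have : (0 : ℝ) ≤ (E j i 2).card := Nat.cast_nonneg _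
      linarith
    have hb : ((E j i 1).card : ℝ) ≤ K := by
      have : (0 : ℝ) ≤ (E j i 0).card := Nat.cast_nonneg _
      have : (0 : ℝ) ≤ (E j i 2).card := Nat.cast_nonneg _
      linarith
    have hc : ((E j i 2).card : ℝ) ≤ K := by
      have : (0 : ℝ) ≤ (E j i 0).card := Nat.cast_nonneg _
      have : (0 : ℝ) ≤ (E j i 1).card := Nat.cast_nonneg _
      linarith
    have h3 : ((inTri (E j i 0) (E j i 1) (E j i 2)).card : ℝ) ^ 2 ≤ K ^ 3 := by
      calc ((inTri (E j i 0) (E j i 1) (E j i 2)).card : ℝ) ^ 2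
          ≤ ((E j i 0).card : ℝ) * (((E j i 1).card : ℝ) * ((E j i 2).card : ℝ)) := by
            exact_mod_cast h1
        _ ≤ K * (K * K) := by
            refine mul_le_mul ha (mul_le_mul hb hc (Nat.cast_nonneg _) hK) (by positivity) hK
        _ = K ^ 3 := by ring
    have h4 : (K ^ (3 / 2 : ℝ)) ^ 2 = K ^ 3 := by
      rw [← Real.rpow_natCast, ← Real.rpow_mul hK]
      norm_num
    have h5 : 0 ≤ K ^ (3 / 2 : ℝ) := Real.rpow_nonneg hK _
    exact (sq_le_sq₀ (Nat.cast_nonneg _) h5).1 (by rw [h4]; exact h3)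
  · simp only [Fintype.card_prod, Fintype.card_fin]; positivity
  · rw [hcardB]
    have : K * q / (q : ℝ) ^ 3 = K / (q : ℝ) ^ 2 := by field_simp
    rw [this]
    exact h

end Pool.Agent.Helper5.UV
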