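import Pool.Agent.Helper5.UV.Upper

/-!
# The upper bound with functions of many gates

The votes of the blocks are functions of single bits of the weights: gates of fan-in one.
-/

set_option autoImplicit false

open Finset
open scoped BigOperators

namespace Pool.Agent.Helper5.UV

open Pool.Agent.Helper22.ETModel Pool.Agent.Helper8.VT Pool.Agent.Helper8.UV

/-- The bit number `t` of `z + n ^ 300`. -/
noncomputable def bitOf (n t : ℕ) (z : ℤ) : ℝ :=
  if (z + (n : ℤ) ^ 300).toNat.testBit t = true then 1 else 0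

open Classical in
/-- The number with given bits. -/
noncomputable def ofPat (b : ℕ) (ε : ℕ → Bool) : ℕ :=
  if h : ∃ z : ℕ, z < 2 ^ b ∧ ∀ t < b, z.testBit t = ε t then h.choose else 0

theorem ofPat_eq (b z : ℕ) (ε : ℕ → Bool) (hz : z < 2 ^ b) (hε : ∀ t < b, z.testBit t = ε t) :
    ofPat b ε = z := by
  have h : ∃ z : ℕ, z < 2 ^ b ∧ ∀ t < b, z.testBit t = ε t := ⟨z, hz, hε⟩
  unfold ofPat
  rw [dif_pos h]
  obtain ⟨h1, h2⟩ := h.choose_spec
  refine Nat.eq_of_testBit_eq fun t => ?_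
  rcases lt_or_ge t b with ht | ht
  · rw [h2 t ht, hε t ht]
  · rw [Nat.testBit_lt_two_pow (lt_of_lt_of_le h1 (Nat.pow_le_pow_right (by norm_num) ht)),
      Nat.testBit_lt_two_pow (lt_of_lt_of_le hz (Nat.pow_le_pow_right (by norm_num) ht))]

/-- A function of few weights is a function of their bits. -/
theorem isJunta_of_dependsOn {n : ℕ} (L : List (Fin n × Fin n)) (s b : ℕ)
    (hb : 2 * n ^ 300 + 1 ≤ 2 ^ b) (hs : L.length ≤ s)
    (F : Flags n → (Fin n → Fin n → ℤ) → ℝ) (hF : ∀ f, DependsOn L (F f)) :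
    IsJunta (s * b) (s * b) (fun I : Inst n => F I.flag I.wt) := by
  classical
  refine ⟨fun _ i => if h : (i : ℕ) / b < L.length then {L.get ⟨(i : ℕ) / b, h⟩} else ∅,
    fun _ i _ z => bitOf n ((i : ℕ) % b) z, fun _ _ => 1,
    fun f ε => F f (fun u v => if h : ∃ r : Fin L.length, L.get r = (u, v) then
      (ofPat b (fun t => if ht : (h.choose : ℕ) * b + t < s * b then
        ε ⟨(h.choose : ℕ) * b + t, ht⟩ else false) : ℤ) - (n : ℤ) ^ 300 else 0), ?_, ?_⟩
  · intro f
    calc ∑ i : Fin (s * b), (if h : (i : ℕ) / b < L.length then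
          ({L.get ⟨(i : ℕ) / b, h⟩} : Finset (Fin n × Fin n)) else ∅).card
        ≤ ∑ _i : Fin (s * b), 1 := by
          refine sum_le_sum fun i _ => ?_
          split
          · rw [card_singleton]
          · simp
      _ = s * b := by simp
  · intro I hI
    apply hF
    intro p hp
    obtain ⟨r, hr⟩ := List.get_of_mem hp
    have hex : ∃ r : Fin L.length, L.get r = (p.1, p.2) := ⟨r, hr⟩
    rw [dif_pos hex]
    have hc := hex.choose_spec
    set r0 := hex.choose with hr0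
    have hbound := abs_le.1 (hI.2.2.2 p.1 p.2)
    have hz0 : 0 ≤ I.wt p.1 p.2 + (n : ℤ) ^ 300 := by linarith [hbound.1]
    obtain ⟨z, hz⟩ := Int.eq_ofNat_of_zero_le hz0
    have hzb : z < 2 ^ b := by
      have h1 : (z : ℤ) ≤ 2 * (n : ℤ) ^ 300 := by rw [← hz]; linarith [hbound.2]
      have h2 : z ≤ 2 * n ^ 300 := by exact_mod_cast h1
      omega
    have hpat := ofPat_eq b z (fun t => if ht : (r0 : ℕ) * b + t < s * b then
        decide ((1 : ℝ) ≤ ∑ q ∈ (if h : ((⟨(r0 : ℕ) * b + t, ht⟩ : Fin (s * b)) : ℕ) / b < L.length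
          then ({L.get ⟨((⟨(r0 : ℕ) * b + t, ht⟩ : Fin (s * b)) : ℕ) / b, h⟩} :
            Finset (Fin n × Fin n)) else ∅),
          bitOf n (((⟨(r0 : ℕ) * b + t, ht⟩ : Fin (s * b)) : ℕ) % b) (I.wt q.1 q.2)) else false)
      hzb ?_
    · rw [hpat]
      have : ((z : ℕ) : ℤ) = I.wt p.1 p.2 + (n : ℤ) ^ 300 := hz.symm
      rw [this]; ring
    · intro t ht
      have hb0 : 0 < b := by omega
      have hlt : (r0 : ℕ) * b + t < s * b := by
        have h1 : (r0 : ℕ) + 1 ≤ s := le_trans r0.2 hs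
        calc (r0 : ℕ) * b + t < (r0 : ℕ) * b + b := by omega
          _ = ((r0 : ℕ) + 1) * b := by ring
          _ ≤ s * b := Nat.mul_le_mul_right b h1
      have hdiv : ((r0 : ℕ) * b + t) / b = r0 := by
        rw [mul_comm, Nat.mul_add_div hb0, Nat.div_eq_of_lt ht, add_zero]
      have hmod : ((r0 : ℕ) * b + t) % b = t := by
        rw [mul_comm, Nat.mul_add_mod, Nat.mod_eq_of_lt ht]
      have hlt2 : ((r0 : ℕ) * b + t) / b < L.length := by rw [hdiv]; exact r0.2
      have hget : L.get ⟨((r0 : ℕ) * b + t) / b, hlt2⟩ = (p.1, p.2) := by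
        rw [← hc]
        congr 1
        exact Fin.ext hdiv
      simp only [dif_pos hlt, dif_pos hlt2, hget, hmod, sum_singleton]
      unfold bitOf
      have hz' : (I.wt p.1 p.2 + (n : ℤ) ^ 300).toNat = z := by rw [hz]; simp
      rw [hz']
      cases h : z.testBit t
      · simp
      · simp

/-- For every `s`, blocks of `s` weights, read bit by bit by gates of fan-in one, decide Exact
Triangle. -/
theorem upper_juntas (n s : ℕ) (hs : 3 ≤ s) (hsn : s ≤ n ^ 2) :
    ∃ (N : ℕ) (H : Fin N → Inst n → ℝ), (N : ℝ) * (s : ℝ) ^ (3 / 2 : ℝ) ≤ 2 ^ 9 * (n : ℝ) ^ 3 ∧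
      (∀ r, IsJunta (s * (302 * (Nat.log 2 n + 1))) (s * (302 * (Nat.log 2 n + 1))) (H r)) ∧
      ∀ I : Inst n, 0 < ∑ r, H r I ↔ I.Yes := by
  classical
  set k := Nat.sqrt (s / 3) with hkdef
  have hk : 0 < k := Nat.sqrt_pos.2 (by omega)
  have hk2 : 3 * (k * k) ≤ s := by
    have := Nat.sqrt_le (s / 3)
    rw [← hkdef] at this
    omega
  have hk3 : s ≤ 12 * (k * k) := by
    have h1 := Nat.lt_succ_sqrt (s / 3)
    rw [← hkdef] at h1
    have h2 : (k + 1) * (k + 1) ≤ 4 * (k * k) := by nlinarith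
    simp only [Nat.succ_eq_add_one] at h1
    omega
  have hkn : k ≤ n := by
    by_contra hcon
    push Not at hcon
    have : n ^ 2 < k * k := by nlinarith
    omega
  set q := n / k + 1 with hqdef
  have hqk : q * k ≤ 2 * n := by
    rw [hqdef, Nat.add_mul, one_mul]
    have := Nat.div_mul_le_self n k
    omega
  have hlen : ∀ a b c : ℕ, ((cells n k a b).toList ++ ((cells n k b c).toList ++
      (cells n k a c).toList)).length ≤ s := by
    intro a b c
    simp only [List.length_append, Finset.length_toList]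
    have h1 := card_cells (n := n) k a b hk
    have h2 := card_cells (n := n) k b c hk
    have h3 := card_cells (n := n) k a c hk
    omega
  set e := (Fintype.equivFin (Fin q × Fin q × Fin q)) with he
  refine ⟨Fintype.card (Fin q × Fin q × Fin q), fun r I =>
    blockVote k (e.symm r).1 (e.symm r).2.1 (e.symm r).2.2 I.flag I.wt, ?_, ?_, ?_⟩
  · have hq : (Fintype.card (Fin q × Fin q × Fin q) : ℝ) = (q : ℝ) ^ 3 := by
      simp only [Fintype.card_prod, Fintype.card_fin]
      push_cast; ring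
    rw [hq]
    have h1 : (s : ℝ) ^ (3 / 2 : ℝ) ≤ (64 : ℝ) * (k : ℝ) ^ 3 := by
      have h2 : (s : ℝ) ≤ 16 * ((k : ℝ) * k) := by
        have : (s : ℝ) ≤ 12 * ((k : ℝ) * k) := by exact_mod_cast hk3
        have : (0 : ℝ) ≤ (k : ℝ) * k := by positivity
        linarith
      calc (s : ℝ) ^ (3 / 2 : ℝ) ≤ (16 * ((k : ℝ) * k)) ^ (3 / 2 : ℝ) :=
            Real.rpow_le_rpow (Nat.cast_nonneg _) h2 (by norm_num)
        _ = ((4 * (k : ℝ)) ^ (2 : ℕ)) ^ (3 / 2 : ℝ) := by congr 1; ring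
        _ = (4 * (k : ℝ)) ^ (3 : ℕ) := by
            rw [← Real.rpow_natCast, ← Real.rpow_mul (by positivity), ← Real.rpow_natCast]
            norm_num
        _ = 64 * (k : ℝ) ^ 3 := by ring
    have h3 : ((q : ℝ) * k) ^ 3 ≤ (2 * (n : ℝ)) ^ 3 := by
      refine pow_le_pow_left₀ (by positivity) ?_ 3
      exact_mod_cast hqk
    calc (q : ℝ) ^ 3 * (s : ℝ) ^ (3 / 2 : ℝ) ≤ (q : ℝ) ^ 3 * (64 * (k : ℝ) ^ 3) :=
          mul_le_mul_of_nonneg_left h1 (by positivity)
      _ = 64 * ((q : ℝ) * k) ^ 3 := by ring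
      _ ≤ 64 * (2 * (n : ℝ)) ^ 3 := by linarith
      _ = 2 ^ 9 * (n : ℝ) ^ 3 := by ring
  · intro r
    have hdep := fun f : Flags n => blockVote_depends k ((e.symm r).1 : ℕ)
      ((e.symm r).2.1 : ℕ) ((e.symm r).2.2 : ℕ) f
    exact isJunta_of_dependsOn _ s (302 * (Nat.log 2 n + 1)) (bits n) (hlen _ _ _) _ hdep
  · intro I
    have h01 : ∀ a b c, blockVote k a b c I.flag I.wt = 0 ∨ blockVote k a b c I.flag I.wt = 1 := by
      intro a b c
      simp only [blockVote]
      split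
      · exact Or.inr rfl
      · exact Or.inl rfl
    rw [sum_pos_iff_of_nonneg (fun r _ => by
      change 0 ≤ blockVote k ((e.symm r).1 : ℕ) ((e.symm r).2.1 : ℕ) ((e.symm r).2.2 : ℕ) I.flag I.wt
      rcases h01 ((e.symm r).1 : ℕ) ((e.symm r).2.1 : ℕ) ((e.symm r).2.2 : ℕ) with h | h
      · rw [h]
      · rw [h]; norm_num)]
    constructor
    · rintro ⟨r, -, hr⟩
      change 0 < blockVote k ((e.symm r).1 : ℕ) ((e.symm r).2.1 : ℕ) ((e.symm r).2.2 : ℕ) I.flag I.wt
        at hr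
      rcases h01 ((e.symm r).1 : ℕ) ((e.symm r).2.1 : ℕ) ((e.symm r).2.2 : ℕ) with h | h
      · rw [h] at hr; exact absurd hr (lt_irrefl _)
      · simp only [blockVote] at h
        split at h
        · rename_i h'
          obtain ⟨i, j, l, _, _, _, h1, h2, h3, h4, h5, h6, h7⟩ := h'
          exact ⟨i, j, l, h1, h2, h3, h4, h5, h6, h7⟩
        · norm_num at h
    · rintro ⟨i, j, l, h1, h2, h3, h4, h5, h6, h7⟩
      have hb : ∀ x : Fin n, (x : ℕ) / k < q := fun x => by
        have : (x : ℕ) / k ≤ n / k := Nat.div_le_div_right x.2.le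
        omega
      refine ⟨e (⟨(i : ℕ) / k, hb i⟩, ⟨(j : ℕ) / k, hb j⟩, ⟨(l : ℕ) / k, hb l⟩), mem_univ _, ?_⟩
      simp only [Equiv.symm_apply_apply, blockVote]
      rw [if_pos]
      · norm_num
      · exact ⟨i, j, l, rfl, rfl, rfl, h1, h2, h3, h4, h5, h6, h7⟩

theorem juntaStatement : JuntaStatement := fun n s hs hsn => upper_juntas n s hs hsn

end Pool.Agent.Helper5.UV
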