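import Mathlib

/-!
# Concentration of sums of independent contributions

The Littlewood-Offord-Erdos inequality and the Kolmogorov-Rogozin inequality in the following
form: if `w` is uniformly distributed on `ι → X` and `q f` is the probability that the
contributions `g f v`, `g f v'` of two independent values differ by at least `μ`, then the sum of
the contributions lies in a given half-open interval of length `μ` with probability at most
`(∑ f, q f) ^ (-1/2)`.
-/

set_option autoImplicit false

namespace Pool.Agent.Helper5.UV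

open Finset

/-! ### The middle binomial coefficient -/

theorem central_sq (k : ℕ) : (2 * k + 1) * (Nat.centralBinom k) ^ 2 ≤ 16 ^ k := by
  induction k with
  | zero => simp
  | succ k ih =>
    have h := Nat.succ_mul_centralBinom_succ k
    have h1 : (k + 1) ^ 2 * ((2 * (k + 1) + 1) * (Nat.centralBinom (k + 1)) ^ 2) ≤
        (k + 1) ^ 2 * 16 ^ (k + 1) := by
      calc (k + 1) ^ 2 * ((2 * (k + 1) + 1) * (Nat.centralBinom (k + 1)) ^ 2)
          = (2 * (k + 1) + 1) * ((k + 1) * Nat.centralBinom (k + 1)) ^ 2 := by ring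
        _ = (2 * (k + 1) + 1) * (2 * (2 * k + 1) * Nat.centralBinom k) ^ 2 := by rw [h]
        _ = 4 * (2 * k + 3) * (2 * k + 1) * ((2 * k + 1) * (Nat.centralBinom k) ^ 2) := by ring
        _ ≤ 4 * (2 * k + 3) * (2 * k + 1) * 16 ^ k := Nat.mul_le_mul_left _ ih
        _ ≤ (16 * (k + 1) ^ 2) * 16 ^ k := Nat.mul_le_mul_right _ (by nlinarith)
        _ = (k + 1) ^ 2 * 16 ^ (k + 1) := by ring
    exact Nat.le_of_mul_le_mul_left h1 (by positivity)

theorem choose_half_sq (m : ℕ) : (m + 1) * (m.choose (m / 2)) ^ 2 ≤ 4 ^ m := by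
  rcases Nat.even_or_odd' m with ⟨k, rfl | rfl⟩
  · have h := central_sq k
    rw [Nat.centralBinom_eq_two_mul_choose] at h
    rw [Nat.mul_div_cancel_left k (by norm_num), pow_mul]
    exact h
  · have h := central_sq (k + 1)
    have h2 : (2 * k + 1) / 2 = k := by omega
    have h3 : Nat.centralBinom (k + 1) = 2 * (2 * k + 1).choose k := by
      rw [Nat.centralBinom_eq_two_mul_choose, show 2 * (k + 1) = (2 * k + 1) + 1 by ring,
        Nat.choose_succ_succ]
      have : (2 * k + 1).choose (k + 1) = (2 * k + 1).choose k := by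
        rw [Nat.choose_symm_of_eq_add]
        omega
      rw [Nat.succ_eq_add_one, this]; ring
    rw [h3] at h
    rw [h2]
    have h4 : 16 ^ (k + 1) = 4 * 4 ^ (2 * k + 1) := by
      rw [show (16 : ℕ) = 4 ^ 2 by norm_num, ← pow_mul]; ring
    rw [h4] at h
    nlinarith [h]

theorem choose_half_le (m : ℕ) : (m.choose (m / 2) : ℝ) ≤ 2 ^ m / Real.sqrt (m + 1) := by
  have h : (((m + 1) * (m.choose (m / 2)) ^ 2 : ℕ) : ℝ) ≤ ((4 ^ m : ℕ) : ℝ) :=
    Nat.cast_le.2 (choose_half_sq m)
  push_cast at h
  have hs : (0 : ℝ) < Real.sqrt (m + 1) := Real.sqrt_pos.2 (by positivity)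
  rw [le_div_iff₀ hs]
  refine (sq_le_sq₀ (by positivity) (by positivity)).1 ?_
  rw [mul_pow, Real.sq_sqrt (by positivity), ← pow_mul, mul_comm m 2, pow_mul]
  norm_num
  linarith

/-! ### The Littlewood-Offord-Erdos inequality -/

theorem elo_all {α : Type*} [Fintype α] [DecidableEq α] (d : α → ℝ) (μ t : ℝ) (hμ : 0 < μ)
    (hd : ∀ i, μ ≤ |d i|) :
    ((univ : Finset (α → Bool)).filter fun ε =>
      t ≤ ∑ i, (if ε i = true then d i else 0) ∧ ∑ i, (if ε i = true then d i else 0) < t + μ).card ≤
      (Fintype.card α).choose (Fintype.card α / 2) := by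
  classical
  let Φ : (α → Bool) → Finset α := fun ε =>
    univ.filter fun i => (ε i = true ∧ 0 ≤ d i) ∨ (ε i = false ∧ d i < 0)
  have hΦ : Function.Injective Φ := by
    intro ε ε' h
    funext i
    have hi := congrArg (fun s => i ∈ s) h
    simp only [Φ, mem_filter, mem_univ, true_and, eq_iff_iff] at hi
    rcases le_or_gt 0 (d i) with h0 | h0
    · have : ¬ d i < 0 := not_lt.2 h0
      simp only [h0, this, and_true, and_false, or_false] at hi
      exact Bool.eq_iff_iff.2 hi
    · have : ¬ 0 ≤ d i := not_le.2 h0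
      simp only [h0, this, and_true, and_false, false_or] at hi
      cases h1 : ε i <;> cases h2 : ε' i <;> simp_all
  have hsum : ∀ ε : α → Bool, ∑ i, (if ε i = true then d i else 0) =
      ∑ i ∈ Φ ε, |d i| + ∑ i, (if d i < 0 then d i else 0) := by
    intro ε
    simp only [Φ]
    rw [sum_filter, ← sum_add_distrib]
    refine sum_congr rfl fun i _ => ?_
    rcases le_or_gt 0 (d i) with h0 | h0
    · have h1 : ¬ d i < 0 := not_lt.2 h0
      simp only [h0, h1, and_true, and_false, or_false, if_false, add_zero, abs_of_nonneg h0]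
    · have h1 : ¬ 0 ≤ d i := not_le.2 h0
      cases h2 : ε i
      · simp [h0, abs_of_neg h0]
      · simp [h0, h1]
  set F := (univ : Finset (α → Bool)).filter fun ε =>
      t ≤ ∑ i, (if ε i = true then d i else 0) ∧ ∑ i, (if ε i = true then d i else 0) < t + μ with hF
  have hanti : IsAntichain (· ⊆ ·) (SetLike.coe (F.image Φ)) := by
    intro S hS S' hS' hne hsub
    simp only [SetLike.mem_coe, mem_image] at hS hS'
    obtain ⟨ε, hε, rfl⟩ := hS
    obtain ⟨ε', hε', rfl⟩ := hS'
    rw [hF, mem_filter] at hε hε'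
    rw [hsum ε] at hε
    rw [hsum ε'] at hε'
    have hss : Φ ε ⊂ Φ ε' := lt_of_le_of_ne hsub hne
    obtain ⟨i, hi, hi'⟩ := exists_of_ssubset hss
    have h1 : ∑ j ∈ Φ ε, |d j| + |d i| ≤ ∑ j ∈ Φ ε', |d j| := by
      rw [add_comm, ← sum_insert (f := fun j => |d j|) hi']
      exact sum_le_sum_of_subset_of_nonneg (insert_subset hi hsub) fun j _ _ => abs_nonneg _
    have h2 := hd i
    linarith [hε.2.1, hε.2.2, hε'.2.1, hε'.2.2]
  have hs := IsAntichain.sperner hanti
  rwa [card_image_of_injective _ hΦ] at hs

theorem elo {α : Type*} [Fintype α] [DecidableEq α] (d : α → ℝ) (μ t : ℝ) (hμ : 0 < μ) :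
    (((univ : Finset (α → Bool)).filter fun ε =>
      t ≤ ∑ i, (if ε i = true then d i else 0) ∧
        ∑ i, (if ε i = true then d i else 0) < t + μ).card : ℝ) ≤
      2 ^ (Fintype.card α) / Real.sqrt ((univ.filter fun i => μ ≤ |d i|).card + 1) := by
  classical
  let p : α → Prop := fun i => μ ≤ |d i|
  set m := (univ.filter fun i => μ ≤ |d i|).card with hm
  have hcp : Fintype.card {i // p i} = m := by
    rw [hm, Fintype.card_subtype]
  have hcn : Fintype.card {i // ¬ p i} = Fintype.card α - m := by
    rw [Fintype.card_subtype_compl, hcp]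
  have hmle : m ≤ Fintype.card α := by rw [hm]; exact card_le_univ _
  -- fibre over the places outside
  have h1 : ((univ : Finset (α → Bool)).filter fun ε =>
      t ≤ ∑ i, (if ε i = true then d i else 0) ∧
        ∑ i, (if ε i = true then d i else 0) < t + μ).card ≤
      ∑ η : ({i // ¬ p i} → Bool), m.choose (m / 2) := by
    have he : ((univ : Finset (α → Bool)).filter fun ε =>
        t ≤ ∑ i, (if ε i = true then d i else 0) ∧
          ∑ i, (if ε i = true then d i else 0) < t + μ).card =
        ∑ η : ({i // ¬ p i} → Bool), ((univ : Finset ({i // p i} → Bool)).filter fun ξ =>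
          (t - ∑ i : {i // ¬ p i}, (if η i = true then d i else 0)) ≤
            ∑ i : {i // p i}, (if ξ i = true then d i else 0) ∧
          ∑ i : {i // p i}, (if ξ i = true then d i else 0) <
            (t - ∑ i : {i // ¬ p i}, (if η i = true then d i else 0)) + μ).card := by
      rw [← card_sigma]
      refine card_bij' (fun ε _ => ⟨fun i => ε i, fun i => ε i⟩)
        (fun s _ => fun i => if h : p i then s.2 ⟨i, h⟩ else s.1 ⟨i, h⟩) ?_ ?_ ?_ ?_
      · intro ε hε
        simp only [mem_filter, mem_univ, true_and] at hε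
        simp only [mem_sigma, mem_univ, mem_filter, true_and]
        have hsplit := Fintype.sum_subtype_add_sum_subtype p
          (fun i => if ε i = true then d i else 0)
        constructor <;> linarith [hε.1, hε.2]
      · intro s hs
        simp only [mem_sigma, mem_univ, mem_filter, true_and] at hs
        simp only [mem_filter, mem_univ, true_and]
        have hsplit := Fintype.sum_subtype_add_sum_subtype p
          (fun i => if (if h : p i then s.2 ⟨i, h⟩ else s.1 ⟨i, h⟩) = true then d i else 0)
        have ha : ∑ i : {i // p i}, (if (if h : p (i : α) then s.2 ⟨i, h⟩ else s.1 ⟨i, h⟩) = true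
            then d i else 0) = ∑ i : {i // p i}, (if s.2 i = true then d i else 0) := by
          refine sum_congr rfl fun i _ => ?_
          rw [dif_pos i.2]
        have hb : ∑ i : {i // ¬ p i}, (if (if h : p (i : α) then s.2 ⟨i, h⟩ else s.1 ⟨i, h⟩) = true
            then d i else 0) = ∑ i : {i // ¬ p i}, (if s.1 i = true then d i else 0) := by
          refine sum_congr rfl fun i _ => ?_
          rw [dif_neg i.2]
        rw [ha, hb] at hsplit
        constructor <;> linarith [hs.1, hs.2]
      · intro ε _
        funext i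
        by_cases h : p i <;> simp
      · intro s _
        obtain ⟨η, ξ⟩ := s
        simp only [Sigma.mk.injEq, heq_eq_eq]
        constructor
        · funext i; rw [dif_neg i.2]
        · funext i; rw [dif_pos i.2]
    rw [he]
    refine sum_le_sum fun η _ => ?_
    have := elo_all (fun i : {i // p i} => d i) μ
      (t - ∑ i : {i // ¬ p i}, (if η i = true then d i else 0)) hμ (fun i => i.2)
    rw [hcp] at this
    exact this
  have h2 : ∑ _η : ({i // ¬ p i} → Bool), m.choose (m / 2) =
      2 ^ (Fintype.card α - m) * m.choose (m / 2) := by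
    rw [sum_const, card_univ, Fintype.card_fun, Fintype.card_bool, hcn, smul_eq_mul]
  rw [h2] at h1
  have h3 := choose_half_le m
  calc _ ≤ ((2 ^ (Fintype.card α - m) * m.choose (m / 2) : ℕ) : ℝ) := Nat.cast_le.2 h1
    _ = 2 ^ (Fintype.card α - m) * (m.choose (m / 2) : ℝ) := by push_cast; ring
    _ ≤ 2 ^ (Fintype.card α - m) * (2 ^ m / Real.sqrt (m + 1)) :=
        mul_le_mul_of_nonneg_left h3 (by positivity)
    _ = 2 ^ (Fintype.card α) / Real.sqrt (m + 1) := by
        rw [← mul_div_assoc, ← pow_add, Nat.sub_add_cancel hmle]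

/-- The Littlewood-Offord-Erdos inequality for sets. -/
theorem elo_finset {α : Type*} [Fintype α] [DecidableEq α] (d : α → ℝ) (μ t : ℝ) (hμ : 0 < μ) :
    (((univ : Finset (Finset α)).filter fun S => t ≤ ∑ i ∈ S, d i ∧ ∑ i ∈ S, d i < t + μ).card : ℝ) ≤
      2 ^ (Fintype.card α) / Real.sqrt ((univ.filter fun i => μ ≤ |d i|).card + 1) := by
  classical
  refine le_trans (Nat.cast_le.2 ?_) (elo d μ t hμ)
  refine card_le_card_of_injOn (fun S i => decide (i ∈ S)) ?_ ?_
  · intro S hS
    simp only [coe_filter, mem_univ, true_and, Set.mem_ofPred_eq] at hS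
    simp only [coe_filter, mem_univ, true_and, Set.mem_ofPred_eq, decide_eq_true_eq]
    have : ∑ i, (if i ∈ S then d i else 0) = ∑ i ∈ S, d i := by
      rw [← sum_filter]; congr 1; ext i; simp
    rw [this]
    exact hS
  · intro S _ S' _ h
    ext i
    have := congrFun h i
    simpa using this

end Pool.Agent.Helper5.UV
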