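import Mathlib
import Pool.Agent.Helper5.UV.ELO

/-!
# The Kolmogorov-Rogozin inequality for uniform independent values

If `w` is uniformly distributed on `ι → V` and `qd (g f) μ` is the probability that `g f` differs
by at least `μ` at two independent uniform values, then `∑ f, g f (w f)` lies in a given half-open
interval of length `μ` with probability at most `(∑ f, qd (g f) μ) ^ (-1/2)`.
-/

set_option autoImplicit false

namespace Pool.Agent.Helper5.UV

open Finset

section Poisson

variable {ι X : Type*} [Fintype ι] [DecidableEq ι] [Fintype X]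

/-- Resampling one coordinate. -/
theorem sum_update (i : ι) (F : (ι → X) → ℝ) :
    ∑ w : ι → X, ∑ v : X, F (Function.update w i v) = (Fintype.card X : ℝ) * ∑ w, F w := by
  classical
  have h1 : ∑ w : ι → X, ∑ v : X, F (Function.update w i v) =
      ∑ p : (ι → X) × X, F (Function.update p.1 i p.2) := by
    rw [Fintype.sum_prod_type]
  have h2 : ∑ p : (ι → X) × X, F (Function.update p.1 i p.2) = ∑ p : (ι → X) × X, F p.1 := by
    let e : (ι → X) × X ≃ (ι → X) × X :=
      { toFun := fun p => (Function.update p.1 i p.2, p.1 i)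
        invFun := fun p => (Function.update p.1 i p.2, p.1 i)
        left_inv := fun p => by
          ext1
          · simp
          · simp
        right_inv := fun p => by
          ext1
          · simp
          · simp }
    exact Equiv.sum_comp e (fun p => F p.1)
  rw [h1, h2, Fintype.sum_prod_type]
  simp only [sum_const, card_univ, nsmul_eq_mul]
  rw [mul_sum]

/-- The number of the places with the property `B`. -/
def num (B : ι → X → Prop) [∀ i v, Decidable (B i v)] (p : ι → X) : ℕ :=
  (univ.filter fun i => B i (p i)).card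

/-- The mean of `1 / (1 + m)` for a sum `m` of independent indicators. -/
theorem sum_inv_num (B : ι → X → Prop) [∀ i v, Decidable (B i v)] :
    (∑ i, ((univ.filter fun v => B i v).card : ℝ)) * ∑ p : ι → X, ((num B p : ℝ) + 1)⁻¹ ≤
      (Fintype.card X : ℝ) * (Fintype.card X : ℝ) ^ (Fintype.card ι) := by
  classical
  have h1 : ∀ i, ((univ.filter fun v => B i v).card : ℝ) * ∑ p : ι → X, ((num B p : ℝ) + 1)⁻¹ ≤
      (Fintype.card X : ℝ) * ∑ p : ι → X, (if B i (p i) then ((num B p : ℝ))⁻¹ else 0) := by
    intro i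
    rw [← sum_update i (fun p => if B i (p i) then ((num B p : ℝ))⁻¹ else 0), mul_sum]
    refine sum_le_sum fun p _ => ?_
    rw [card_filter]
    push_cast
    rw [sum_mul]
    refine sum_le_sum fun v _ => ?_
    simp only [Function.update_self]
    by_cases hv : B i v
    · rw [if_pos hv, if_pos hv, one_mul]
      have h2 : num B (Function.update p i v) ≤ num B p + 1 := by
        unfold num
        have : (univ.filter fun j => B j (Function.update p i v j)) ⊆
            insert i (univ.filter fun j => B j (p j)) := by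
          intro j hj
          simp only [mem_filter, mem_univ, true_and] at hj
          by_cases hji : j = i
          · simp [hji]
          · rw [Function.update_of_ne hji] at hj
            simp [hj]
        exact (card_le_card this).trans (card_insert_le _ _)
      have h3 : 0 < num B (Function.update p i v) := by
        unfold num
        rw [card_pos]
        exact ⟨i, by simp [hv]⟩
      have h4 : (0 : ℝ) < num B (Function.update p i v) := by exact_mod_cast h3
      refine inv_anti₀ h4 ?_
      exact_mod_cast h2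
    · rw [if_neg hv, if_neg hv, zero_mul]
  calc (∑ i, ((univ.filter fun v => B i v).card : ℝ)) * ∑ p : ι → X, ((num B p : ℝ) + 1)⁻¹
      = ∑ i, ((univ.filter fun v => B i v).card : ℝ) * ∑ p : ι → X, ((num B p : ℝ) + 1)⁻¹ := by
        rw [sum_mul]
    _ ≤ ∑ i, (Fintype.card X : ℝ) * ∑ p : ι → X, (if B i (p i) then ((num B p : ℝ))⁻¹ else 0) :=
        sum_le_sum fun i _ => h1 i
    _ = (Fintype.card X : ℝ) * ∑ p : ι → X, ∑ i, (if B i (p i) then ((num B p : ℝ))⁻¹ else 0) := by
        rw [← mul_sum, sum_comm]
    _ ≤ (Fintype.card X : ℝ) * ∑ _p : ι → X, (1 : ℝ) := by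
        refine mul_le_mul_of_nonneg_left (sum_le_sum fun p _ => ?_) (Nat.cast_nonneg _)
        rw [← sum_filter, sum_const, nsmul_eq_mul]
        change ((num B p : ℕ) : ℝ) * ((num B p : ℝ))⁻¹ ≤ 1
        exact mul_inv_le_one
    _ = (Fintype.card X : ℝ) * (Fintype.card X : ℝ) ^ (Fintype.card ι) := by
        rw [sum_const, card_univ, Fintype.card_fun, nsmul_eq_mul, mul_one]
        push_cast
        rfl

end Poisson

section KR

variable {ι V : Type*} [Fintype ι] [DecidableEq ι] [Fintype V]

/-- The probability that `g` differs by at least `μ` at two independent uniform points. -/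
noncomputable def qd (g : V → ℝ) (μ : ℝ) : ℝ :=
  ((univ : Finset (V × V)).filter fun p => μ ≤ |g p.1 - g p.2|).card / (Fintype.card V : ℝ) ^ 2

theorem qd_nonneg (g : V → ℝ) (μ : ℝ) : 0 ≤ qd g μ := by
  unfold qd; positivity

theorem qd_le_one (g : V → ℝ) (μ : ℝ) : qd g μ ≤ 1 := by
  classical
  unfold qd
  refine div_le_one_of_le₀ ?_ (by positivity)
  have : ((univ : Finset (V × V)).filter fun p => μ ≤ |g p.1 - g p.2|).card ≤
      Fintype.card V ^ 2 := by
    refine (card_filter_le _ _).trans ?_
    rw [card_univ, Fintype.card_prod, sq]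
  exact_mod_cast this

theorem qd_anti (g : V → ℝ) {μ ν : ℝ} (h : μ ≤ ν) : qd g ν ≤ qd g μ := by
  classical
  unfold qd
  refine div_le_div_of_nonneg_right ?_ (by positivity)
  refine Nat.cast_le.2 (card_le_card ?_)
  intro p hp
  simp only [mem_filter, mem_univ, true_and] at hp ⊢
  exact h.trans hp

/-- Symmetrization: mixing two independent points by a fixed pattern. -/
theorem sum_mix (ε : ι → Bool) (F : (ι → V) → ℝ) :
    ∑ p : ι → V × V, F (fun f => if ε f = true then (p f).1 else (p f).2) =
      (Fintype.card V : ℝ) ^ (Fintype.card ι) * ∑ w, F w := by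
  classical
  have h1 : ∑ p : ι → V × V, F (fun f => if ε f = true then (p f).1 else (p f).2) =
      ∑ p : ι → V × V, F (fun f => (p f).1) := by
    let e : (ι → V × V) ≃ (ι → V × V) :=
      { toFun := fun p f => if ε f = true then p f else (p f).swap
        invFun := fun p f => if ε f = true then p f else (p f).swap
        left_inv := fun p => by
          funext f
          by_cases h : ε f = true <;> simp [h]
        right_inv := fun p => by
          funext f
          by_cases h : ε f = true <;> simp [h] }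
    rw [← Equiv.sum_comp e (fun p => F (fun f => (p f).1))]
    refine sum_congr rfl fun p _ => ?_
    congr 1
    funext f
    by_cases h : ε f = true <;> simp [e, h]
  have h2 : ∑ p : ι → V × V, F (fun f => (p f).1) = ∑ q : (ι → V) × (ι → V), F q.1 := by
    let e : (ι → V × V) ≃ (ι → V) × (ι → V) :=
      { toFun := fun p => (fun f => (p f).1, fun f => (p f).2)
        invFun := fun q f => (q.1 f, q.2 f)
        left_inv := fun p => rfl
        right_inv := fun q => rfl }
    exact Equiv.sum_comp e (fun q => F q.1)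
  rw [h1, h2, Fintype.sum_prod_type]
  simp only [sum_const, card_univ, nsmul_eq_mul]
  rw [← mul_sum, Fintype.card_fun]
  push_cast
  rfl

/-- The Kolmogorov-Rogozin inequality. -/
theorem kr (g : ι → V → ℝ) (μ t : ℝ) (hμ : 0 < μ) :
    (((univ : Finset (ι → V)).filter fun w =>
      t ≤ ∑ f, g f (w f) ∧ ∑ f, g f (w f) < t + μ).card : ℝ) * Real.sqrt (∑ f, qd (g f) μ) ≤
      (Fintype.card V : ℝ) ^ (Fintype.card ι) := by
  classical
  set N : ℝ := (Fintype.card V : ℝ) ^ (Fintype.card ι) with hN
  have hN0 : 0 ≤ N := by positivity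
  set P : ℝ := (((univ : Finset (ι → V)).filter fun w =>
      t ≤ ∑ f, g f (w f) ∧ ∑ f, g f (w f) < t + μ).card : ℝ) with hP
  have hP0 : 0 ≤ P := by positivity
  let I : (ι → V) → ℝ := fun w => if t ≤ ∑ f, g f (w f) ∧ ∑ f, g f (w f) < t + μ then 1 else 0
  have hPI : P = ∑ w, I w := by
    rw [hP, card_filter]; push_cast; rfl
  let B : ι → V × V → Prop := fun f p => μ ≤ |g f p.1 - g f p.2|
  -- the average over the patterns
  have h1 : (2 : ℝ) ^ (Fintype.card ι) * (N * P) ≤
      ∑ p : ι → V × V, (2 : ℝ) ^ (Fintype.card ι) / Real.sqrt ((num B p : ℝ) + 1) := by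
    have ha : (2 : ℝ) ^ (Fintype.card ι) * (N * P) =
        ∑ ε : ι → Bool, ∑ p : ι → V × V, I (fun f => if ε f = true then (p f).1 else (p f).2) := by
      simp_rw [sum_mix]
      rw [sum_const, card_univ, Fintype.card_fun, Fintype.card_bool, nsmul_eq_mul, hPI]
      push_cast
      rfl
    rw [ha, sum_comm]
    refine sum_le_sum fun p _ => ?_
    have hb := elo (fun f => g f (p f).1 - g f (p f).2) μ (t - ∑ f, g f (p f).2) hμ
    have hc : ∑ ε : ι → Bool, I (fun f => if ε f = true then (p f).1 else (p f).2) =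
        (((univ : Finset (ι → Bool)).filter fun ε =>
          t - ∑ f, g f (p f).2 ≤ ∑ i, (if ε i = true then g i (p i).1 - g i (p i).2 else 0) ∧
          ∑ i, (if ε i = true then g i (p i).1 - g i (p i).2 else 0) <
            t - ∑ f, g f (p f).2 + μ).card : ℝ) := by
      rw [card_filter]
      push_cast
      refine sum_congr rfl fun ε _ => ?_
      have hd : ∑ f, g f (if ε f = true then (p f).1 else (p f).2) =
          ∑ f, g f (p f).2 + ∑ f, (if ε f = true then g f (p f).1 - g f (p f).2 else 0) := by
        rw [← sum_add_distrib]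
        refine sum_congr rfl fun f _ => ?_
        by_cases h : ε f = true <;> simp [h]
      simp only [I, hd]
      congr 1
      apply propext
      constructor
      · rintro ⟨u1, u2⟩; exact ⟨by linarith, by linarith⟩
      · rintro ⟨u1, u2⟩; exact ⟨by linarith, by linarith⟩
    rw [hc]
    exact hb
  have h2 : N * P ≤ ∑ p : ι → V × V, (Real.sqrt ((num B p : ℝ) + 1))⁻¹ := by
    have h3 : ∑ p : ι → V × V, (2 : ℝ) ^ (Fintype.card ι) / Real.sqrt ((num B p : ℝ) + 1) =
        (2 : ℝ) ^ (Fintype.card ι) * ∑ p : ι → V × V, (Real.sqrt ((num B p : ℝ) + 1))⁻¹ := by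
      rw [mul_sum]; refine sum_congr rfl fun p _ => ?_; rw [div_eq_mul_inv]
    rw [h3] at h1
    exact le_of_mul_le_mul_left h1 (by positivity)
  -- Cauchy-Schwarz
  have hcard : (((univ : Finset (ι → V × V)).card : ℕ) : ℝ) = N ^ 2 := by
    rw [card_univ, Fintype.card_fun, Fintype.card_prod, hN, ← pow_mul, mul_comm _ 2, pow_mul, sq]
    push_cast
    rfl
  have h4 : (N * P) ^ 2 ≤ N ^ 2 * ∑ p : ι → V × V, ((num B p : ℝ) + 1)⁻¹ := by
    have h5 : (∑ p : ι → V × V, (Real.sqrt ((num B p : ℝ) + 1))⁻¹) ^ 2 ≤
        ((univ : Finset (ι → V × V)).card : ℝ) *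
          ∑ p : ι → V × V, ((Real.sqrt ((num B p : ℝ) + 1))⁻¹) ^ 2 := sq_sum_le_card_mul_sum_sq
    have h6 : ∀ p : ι → V × V, ((Real.sqrt ((num B p : ℝ) + 1))⁻¹) ^ 2 =
        ((num B p : ℝ) + 1)⁻¹ := fun p => by
      rw [inv_pow, Real.sq_sqrt (by positivity)]
    simp_rw [h6] at h5
    rw [hcard] at h5
    exact (pow_le_pow_left₀ (by positivity) h2 2).trans h5
  -- the mean of 1 / (m + 1)
  set J : ℝ := ∑ f, qd (g f) μ with hJ
  have hJ0 : 0 ≤ J := sum_nonneg fun f _ => qd_nonneg _ _
  have h7 : J * ∑ p : ι → V × V, ((num B p : ℝ) + 1)⁻¹ ≤ N ^ 2 := by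
    have h8 := sum_inv_num B
    have h9 : (Fintype.card (V × V) : ℝ) = (Fintype.card V : ℝ) ^ 2 := by
      rw [Fintype.card_prod, sq]; push_cast; rfl
    rw [h9] at h8
    have h10 : ((Fintype.card V : ℝ) ^ 2) ^ (Fintype.card ι) = N ^ 2 := by
      rw [hN, ← pow_mul, ← pow_mul, mul_comm]
    rw [h10] at h8
    rcases Nat.eq_zero_or_pos (Fintype.card V) with h0 | h0
    · have : J = 0 := by
        rw [hJ]
        refine sum_eq_zero fun f _ => ?_
        unfold qd
        rw [h0]; simp
      rw [this, zero_mul]; positivity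
    · have h0' : (0 : ℝ) < (Fintype.card V : ℝ) ^ 2 := by positivity
      have h11 : (Fintype.card V : ℝ) ^ 2 * J = ∑ i, ((univ.filter fun v => B i v).card : ℝ) := by
        rw [hJ, mul_sum]
        refine sum_congr rfl fun f _ => ?_
        unfold qd
        rw [mul_div_cancel₀ _ h0'.ne']
      have h12 : (Fintype.card V : ℝ) ^ 2 * (J * ∑ p : ι → V × V, ((num B p : ℝ) + 1)⁻¹) ≤
          (Fintype.card V : ℝ) ^ 2 * N ^ 2 := by
        rw [← mul_assoc, h11]; exact h8
      exact le_of_mul_le_mul_left h12 h0'
  rcases hN0.eq_or_lt with hz | hz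
  · -- no points at all
    have : P = 0 := by
      have hc : (Fintype.card (ι → V) : ℝ) = 0 := by
        rw [Fintype.card_fun]; push_cast; exact hz.symm
      have hc' : Fintype.card (ι → V) = 0 := by exact_mod_cast hc
      have : IsEmpty (ι → V) := Fintype.card_eq_zero_iff.1 hc'
      rw [hPI]; simp
    rw [this, zero_mul]; exact hN0
  · have h13 : (P * Real.sqrt J) ^ 2 ≤ N ^ 2 := by
      rw [mul_pow, Real.sq_sqrt hJ0]
      have h14 : N ^ 2 * (P ^ 2 * J) ≤ N ^ 2 * N ^ 2 := by
        calc N ^ 2 * (P ^ 2 * J) = J * (N * P) ^ 2 := by ring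
          _ ≤ J * (N ^ 2 * ∑ p : ι → V × V, ((num B p : ℝ) + 1)⁻¹) :=
              mul_le_mul_of_nonneg_left h4 hJ0
          _ = N ^ 2 * (J * ∑ p : ι → V × V, ((num B p : ℝ) + 1)⁻¹) := by ring
          _ ≤ N ^ 2 * N ^ 2 := mul_le_mul_of_nonneg_left h7 (by positivity)
      exact le_of_mul_le_mul_left h14 (by positivity)
    exact (sq_le_sq₀ (by positivity) hN0).1 h13

end KR

end Pool.Agent.Helper5.UV
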