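import Mathlib
import Pool.Agent.Helper5.UV.KR

/-!
# The rank sum and the total influence of one additive threshold gate
-/

set_option autoImplicit false

namespace Pool.Agent.Helper5.UV

open Finset

theorem rpow_step (n : ℕ) : (3 / 2 : ℝ) * (n : ℝ) ^ (2 / 3 : ℝ) + ((n : ℝ) + 1) ^ (-(1 / 3) : ℝ) ≤
    3 / 2 * ((n : ℝ) + 1) ^ (2 / 3 : ℝ) := by
  have hy : (0 : ℝ) < (n : ℝ) + 1 := by positivity
  have hb := rpow_one_add_le_one_add_mul_self (s := -(1 / ((n : ℝ) + 1)))
    (by rw [neg_le_neg_iff, div_le_one hy]; linarith [(Nat.cast_nonneg n : (0 : ℝ) ≤ n)])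
    (p := 2 / 3) (by norm_num) (by norm_num)
  have h1 : (n : ℝ) = ((n : ℝ) + 1) * (1 + -(1 / ((n : ℝ) + 1))) := by field_simp; ring
  have h0 : (0 : ℝ) ≤ 1 + -(1 / ((n : ℝ) + 1)) := by
    have : 1 / ((n : ℝ) + 1) ≤ 1 := by
      rw [div_le_one hy]; linarith [(Nat.cast_nonneg n : (0 : ℝ) ≤ n)]
    linarith
  have h2 : (n : ℝ) ^ (2 / 3 : ℝ) = ((n : ℝ) + 1) ^ (2 / 3 : ℝ) *
      (1 + -(1 / ((n : ℝ) + 1))) ^ (2 / 3 : ℝ) := by
    conv_lhs => rw [h1]
    rw [Real.mul_rpow hy.le h0]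
  have h3 : ((n : ℝ) + 1) ^ (-(1 / 3) : ℝ) = ((n : ℝ) + 1) ^ (2 / 3 : ℝ) * (1 / ((n : ℝ) + 1)) := by
    rw [show (-(1 / 3) : ℝ) = 2 / 3 - 1 by norm_num, Real.rpow_sub hy, Real.rpow_one]
    ring
  rw [h2, h3]
  have h4 : 0 ≤ ((n : ℝ) + 1) ^ (2 / 3 : ℝ) := by positivity
  nlinarith [mul_le_mul_of_nonneg_left hb h4]

/-- The rank sum. -/
theorem rank_sum {α : Type*} [DecidableEq α] (S : Finset α) (δ : α → ℝ) :
    ∑ s ∈ S, (((S.filter fun t => δ s ≤ δ t).card : ℝ)) ^ (-(1 / 3) : ℝ) ≤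
      3 / 2 * (S.card : ℝ) ^ (2 / 3 : ℝ) := by
  induction S using Finset.induction_on_min_value δ with
  | empty => simp
  | insert a s ha hmin ih =>
    rw [sum_insert ha, card_insert_of_notMem ha]
    have h1 : ((insert a s).filter fun t => δ a ≤ δ t) = insert a s := by
      refine filter_true_of_mem fun t ht => ?_
      rcases mem_insert.1 ht with rfl | ht
      · exact le_rfl
      · exact hmin t ht
    rw [h1, card_insert_of_notMem ha]
    have h2 : ∑ x ∈ s, ((((insert a s).filter fun t => δ x ≤ δ t).card : ℝ)) ^ (-(1 / 3) : ℝ) ≤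
        ∑ x ∈ s, (((s.filter fun t => δ x ≤ δ t).card : ℝ)) ^ (-(1 / 3) : ℝ) := by
      refine sum_le_sum fun x hx => ?_
      refine Real.rpow_le_rpow_of_nonpos ?_ ?_ (by norm_num)
      · have : 0 < (s.filter fun t => δ x ≤ δ t).card :=
          card_pos.2 ⟨x, mem_filter.2 ⟨hx, le_rfl⟩⟩
        exact_mod_cast this
      · exact_mod_cast card_le_card (filter_subset_filter _ (subset_insert a s))
    have h3 := rpow_step s.card
    push_cast
    linarith

variable {ι V : Type*} [Fintype ι] [Fintype V]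

/-- The bound for the influence of the place `e`, when its value changes from `v` to `v'`, on a
gate with the contributions `g`. -/
noncomputable def infl (g : ι → V → ℝ) (e : ι) (v v' : V) : ℝ :=
  if g e v = g e v' then 0 else (Real.sqrt (∑ f, qd (g f) |g e v - g e v'|))⁻¹

theorem infl_nonneg (g : ι → V → ℝ) (e : ι) (v v' : V) : 0 ≤ infl g e v v' := by
  unfold infl; split
  · exact le_rfl
  · positivity

theorem infl_comm (g : ι → V → ℝ) (e : ι) (v v' : V) : infl g e v v' = infl g e v' v := by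
  unfold infl
  rw [abs_sub_comm]
  by_cases h : g e v = g e v'
  · rw [if_pos h, if_pos h.symm]
  · rw [if_neg h, if_neg (fun h' => h h'.symm)]

/-- The total influence of one gate with the exponent `2 / 3`. -/
theorem sum_infl (g : ι → V → ℝ) (k : ℕ)
    (hk : (univ.filter fun e => ∃ v v', g e v ≠ g e v').card ≤ k) :
    ∑ e, ∑ v, ∑ v', (infl g e v v') ^ (2 / 3 : ℝ) ≤
      3 / 2 * (Fintype.card V : ℝ) ^ 2 * (k : ℝ) ^ (2 / 3 : ℝ) := by
  classical
  let δ : ι × V × V → ℝ := fun s => |g s.1 s.2.1 - g s.1 s.2.2|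
  let S : Finset (ι × V × V) := univ.filter fun s => g s.1 s.2.1 ≠ g s.1 s.2.2
  rcases Nat.eq_zero_or_pos (Fintype.card V) with hV | hV
  · have : IsEmpty V := Fintype.card_eq_zero_iff.1 hV
    simp only [univ_eq_empty, sum_empty, sum_const_zero]
    positivity
  have hV' : (0 : ℝ) < Fintype.card V := by exact_mod_cast hV
  -- the sum over triples
  have h1 : ∑ e, ∑ v, ∑ v', (infl g e v v') ^ (2 / 3 : ℝ) =
      ∑ s ∈ S, (infl g s.1 s.2.1 s.2.2) ^ (2 / 3 : ℝ) := by
    have ha : ∑ e, ∑ v, ∑ v', (infl g e v v') ^ (2 / 3 : ℝ) =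
        ∑ s : ι × V × V, (infl g s.1 s.2.1 s.2.2) ^ (2 / 3 : ℝ) := by
      rw [Fintype.sum_prod_type]
      refine sum_congr rfl fun e _ => ?_
      rw [Fintype.sum_prod_type]
    rw [ha]
    symm
    refine sum_subset (subset_univ _) fun s _ hs => ?_
    simp only [S, mem_filter, mem_univ, true_and, not_not] at hs
    unfold infl
    rw [if_pos hs, Real.zero_rpow (by norm_num)]
  have h2 : ∀ s ∈ S, (infl g s.1 s.2.1 s.2.2) ^ (2 / 3 : ℝ) =
      (Fintype.card V : ℝ) ^ (2 / 3 : ℝ) *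
        (((S.filter fun t => δ s ≤ δ t).card : ℝ)) ^ (-(1 / 3) : ℝ) := by
    intro s hs
    have hs' : g s.1 s.2.1 ≠ g s.1 s.2.2 := (mem_filter.1 hs).2
    have hδ : 0 < δ s := abs_pos.2 (sub_ne_zero.2 hs')
    have hJ : ∑ f, qd (g f) |g s.1 s.2.1 - g s.1 s.2.2| =
        ((S.filter fun t => δ s ≤ δ t).card : ℝ) / (Fintype.card V : ℝ) ^ 2 := by
      unfold qd
      rw [← sum_div]
      congr 1
      have hb : (S.filter fun t => δ s ≤ δ t) = ((univ : Finset ι).sigma
          (fun f => (univ : Finset (V × V)).filter fun p : V × V => δ s ≤ |g f p.1 - g f p.2|)).map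
            ⟨fun t : (_ : ι) × (V × V) => (t.1, t.2.1, t.2.2), fun t t' h => by
              obtain ⟨a, b, c⟩ := t
              obtain ⟨a', b', c'⟩ := t'
              simp only [Prod.mk.injEq] at h
              obtain ⟨rfl, rfl, rfl⟩ := h
              rfl⟩ := by
        ext ⟨f, u, u'⟩
        simp only [mem_filter, mem_map, mem_sigma, mem_univ, true_and, Function.Embedding.coeFn_mk,
          S]
        constructor
        · rintro ⟨-, h⟩
          exact ⟨⟨f, u, u'⟩, h, rfl⟩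
        · rintro ⟨⟨f', u1, u2⟩, h, heq⟩
          simp only [Prod.mk.injEq] at heq
          obtain ⟨rfl, rfl, rfl⟩ := heq
          refine ⟨?_, h⟩
          have : 0 < |g f' u1 - g f' u2| := lt_of_lt_of_le hδ h
          exact sub_ne_zero.1 (abs_pos.1 this)
      rw [hb, card_map, card_sigma]
      push_cast
      rfl
    have hcnt : (0 : ℝ) < ((S.filter fun t => δ s ≤ δ t).card : ℝ) := by
      have : 0 < (S.filter fun t => δ s ≤ δ t).card :=
        card_pos.2 ⟨s, mem_filter.2 ⟨hs, le_rfl⟩⟩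
      exact_mod_cast this
    unfold infl
    rw [if_neg hs', hJ, Real.sqrt_eq_rpow, ← Real.rpow_neg (by positivity),
      ← Real.rpow_mul (by positivity), Real.div_rpow (by positivity) (by positivity)]
    rw [show (-(1 / 2) * (2 / 3) : ℝ) = -(1 / 3) by norm_num, div_eq_mul_inv,
      ← Real.rpow_neg (by positivity), neg_neg, ← Real.rpow_natCast, ← Real.rpow_mul hV'.le, mul_comm]
    norm_num
  have hScard : (S.card : ℝ) ≤ k * (Fintype.card V : ℝ) ^ 2 := by
    have hsub : S ⊆ (univ.filter fun e => ∃ v v', g e v ≠ g e v') ×ˢ (univ : Finset (V × V)) := by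
      intro s hs
      have hs' : g s.1 s.2.1 ≠ g s.1 s.2.2 := (mem_filter.1 hs).2
      simp only [mem_product, mem_filter, mem_univ, true_and, and_true]
      exact ⟨_, _, hs'⟩
    have h3 := (card_le_card hsub).trans (card_product _ _).le
    rw [card_univ, Fintype.card_prod] at h3
    have h4 := h3.trans (Nat.mul_le_mul_right _ hk)
    calc (S.card : ℝ) ≤ ((k * (Fintype.card V * Fintype.card V) : ℕ) : ℝ) := Nat.cast_le.2 h4
      _ = k * (Fintype.card V : ℝ) ^ 2 := by push_cast; ring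
  rw [h1, sum_congr rfl h2, ← mul_sum]
  calc (Fintype.card V : ℝ) ^ (2 / 3 : ℝ) *
        ∑ s ∈ S, (((S.filter fun t => δ s ≤ δ t).card : ℝ)) ^ (-(1 / 3) : ℝ)
      ≤ (Fintype.card V : ℝ) ^ (2 / 3 : ℝ) * (3 / 2 * (S.card : ℝ) ^ (2 / 3 : ℝ)) :=
        mul_le_mul_of_nonneg_left (rank_sum S δ) (by positivity)
    _ ≤ (Fintype.card V : ℝ) ^ (2 / 3 : ℝ) *
        (3 / 2 * (k * (Fintype.card V : ℝ) ^ 2) ^ (2 / 3 : ℝ)) := by
        refine mul_le_mul_of_nonneg_left (mul_le_mul_of_nonneg_left ?_ (by norm_num))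
          (by positivity)
        exact Real.rpow_le_rpow (Nat.cast_nonneg _) hScard (by norm_num)
    _ = 3 / 2 * (Fintype.card V : ℝ) ^ 2 * (k : ℝ) ^ (2 / 3 : ℝ) := by
        rw [Real.mul_rpow (Nat.cast_nonneg _) (by positivity)]
        have : (Fintype.card V : ℝ) ^ (2 / 3 : ℝ) * ((Fintype.card V : ℝ) ^ 2) ^ (2 / 3 : ℝ) =
            (Fintype.card V : ℝ) ^ 2 := by
          rw [← Real.mul_rpow hV'.le (by positivity), ← pow_succ', ← Real.rpow_natCast,
            ← Real.rpow_mul hV'.le]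
          norm_num
        calc _ = 3 / 2 * ((Fintype.card V : ℝ) ^ (2 / 3 : ℝ) *
            ((Fintype.card V : ℝ) ^ 2) ^ (2 / 3 : ℝ)) * (k : ℝ) ^ (2 / 3 : ℝ) := by ring
          _ = _ := by rw [this]

end Pool.Agent.Helper5.UV
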