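import Mathlib
import Pool.Agent.Helper5.UV.Rank

/-!
# The sensitivity of one additive threshold gate

At most five places have planted values, the other values are independent and uniform. The gate
changes when the planted value at `e0` changes from `z e0` to `z' e0` with probability at most
`√6` times the influence bound `infl`.
-/

set_option autoImplicit false

namespace Pool.Agent.Helper5.UV

open Finset

variable {ι V : Type*} [Fintype ι] [DecidableEq ι] [Fintype V]

theorem qd_zero (μ : ℝ) (hμ : 0 < μ) : qd (fun _ : V => (0 : ℝ)) μ = 0 := by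
  unfold qd
  have : ((univ : Finset (V × V)).filter fun p => μ ≤ |(0 : ℝ) - 0|) = ∅ := by
    refine filter_eq_empty_iff.2 fun p _ => ?_
    rw [sub_zero, abs_zero]
    exact not_le.2 hμ
  rw [this]; simp

/-- One sided version. -/
theorem sens_aux (g : ι → V → ℝ) (θ : ℝ) (E : Finset ι) (hE : E.card ≤ 5) (e0 : ι)
    (A A' : ℝ) (v v' : V) (hA : A' - A = g e0 v' - g e0 v) (hlt : A < A') :
    (((univ : Finset (ι → V)).filter fun w =>
      θ ≤ A' + ∑ e, (if e ∈ E then 0 else g e (w e)) ∧
        A + ∑ e, (if e ∈ E then 0 else g e (w e)) < θ).card : ℝ) ≤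
      Real.sqrt 6 * infl g e0 v v' * (Fintype.card V : ℝ) ^ (Fintype.card ι) := by
  classical
  set N : ℝ := (Fintype.card V : ℝ) ^ (Fintype.card ι) with hN
  have hN0 : 0 ≤ N := by positivity
  set δ : ℝ := A' - A with hδ
  have hδ0 : 0 < δ := sub_pos.2 hlt
  have hne : g e0 v ≠ g e0 v' := by
    intro h; rw [h] at hA; linarith
  have habs : |g e0 v - g e0 v'| = δ := by
    rw [abs_sub_comm, ← hA, abs_of_pos hδ0]
  set J : ℝ := ∑ f, qd (g f) δ with hJ
  set g' : ι → V → ℝ := fun e u => if e ∈ E then 0 else g e u with hg'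
  set J' : ℝ := ∑ f, qd (g' f) δ with hJ'
  have hJJ' : J - 5 ≤ J' := by
    have h1 : ∀ f, qd (g f) δ - (if f ∈ E then 1 else 0) ≤ qd (g' f) δ := by
      intro f
      by_cases hf : f ∈ E
      · rw [if_pos hf]
        have := qd_le_one (g f) δ
        have := qd_nonneg (g' f) δ
        linarith
      · rw [if_neg hf, sub_zero]
        refine le_of_eq ?_
        congr 1
        funext u
        simp only [hg', if_neg hf]
    have h2 := sum_le_sum fun f (_ : f ∈ (univ : Finset ι)) => h1 f
    rw [sum_sub_distrib, sum_ite_mem, univ_inter, sum_const, nsmul_eq_mul, mul_one] at h2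
    have h3 : (E.card : ℝ) ≤ 5 := by exact_mod_cast hE
    linarith
  have hJpos : 0 < J := by
    have hV : 0 < Fintype.card V := Fintype.card_pos_iff.2 ⟨v⟩
    have h1 : 0 < qd (g e0) δ := by
      unfold qd
      have h2 : 0 < ((univ : Finset (V × V)).filter fun p => δ ≤ |g e0 p.1 - g e0 p.2|).card :=
        card_pos.2 ⟨(v, v'), by simp [habs]⟩
      positivity
    exact lt_of_lt_of_le h1 (single_le_sum (f := fun f => qd (g f) δ)
      (fun f _ => qd_nonneg _ _) (mem_univ e0))
  -- the probability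
  set P : ℝ := (((univ : Finset (ι → V)).filter fun w =>
      θ ≤ A' + ∑ e, (if e ∈ E then 0 else g e (w e)) ∧
        A + ∑ e, (if e ∈ E then 0 else g e (w e)) < θ).card : ℝ) with hP
  have hP0 : 0 ≤ P := by positivity
  have hPN : P ≤ N := by
    have h1 : ((univ : Finset (ι → V)).filter fun w =>
      θ ≤ A' + ∑ e, (if e ∈ E then 0 else g e (w e)) ∧
        A + ∑ e, (if e ∈ E then 0 else g e (w e)) < θ).card ≤ Fintype.card (ι → V) :=
      card_le_univ _
    rw [Fintype.card_fun] at h1
    have h2 : P ≤ ((Fintype.card V ^ Fintype.card ι : ℕ) : ℝ) := Nat.cast_le.2 h1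
    push_cast at h2
    exact h2
  have hkr : P * Real.sqrt J' ≤ N := by
    have h1 := kr g' δ (θ - A') hδ0
    have h2 : ((univ : Finset (ι → V)).filter fun w =>
        θ - A' ≤ ∑ f, g' f (w f) ∧ ∑ f, g' f (w f) < θ - A' + δ) =
        ((univ : Finset (ι → V)).filter fun w =>
      θ ≤ A' + ∑ e, (if e ∈ E then 0 else g e (w e)) ∧
        A + ∑ e, (if e ∈ E then 0 else g e (w e)) < θ) := by
      refine filter_congr fun w _ => ?_
      simp only [hg']
      constructor
      · rintro ⟨u1, u2⟩; exact ⟨by linarith, by linarith⟩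
      · rintro ⟨u1, u2⟩; exact ⟨by linarith, by linarith⟩
    rw [h2] at h1
    exact h1
  have hinfl : infl g e0 v v' = (Real.sqrt J)⁻¹ := by
    unfold infl
    rw [if_neg hne, habs]
  rw [hinfl]
  have hsJ : 0 < Real.sqrt J := Real.sqrt_pos.2 hJpos
  have key : P * Real.sqrt J ≤ Real.sqrt 6 * N := by
    rcases lt_or_ge J 6 with h6 | h6
    · calc P * Real.sqrt J ≤ N * Real.sqrt 6 :=
          mul_le_mul hPN (Real.sqrt_le_sqrt h6.le) (Real.sqrt_nonneg _) hN0
        _ = Real.sqrt 6 * N := mul_comm _ _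
    · have h1 : J ≤ 6 * J' := by linarith
      calc P * Real.sqrt J ≤ P * Real.sqrt (6 * J') :=
            mul_le_mul_of_nonneg_left (Real.sqrt_le_sqrt h1) hP0
        _ = Real.sqrt 6 * (P * Real.sqrt J') := by
            rw [Real.sqrt_mul (by norm_num)]; ring
        _ ≤ Real.sqrt 6 * N := mul_le_mul_of_nonneg_left hkr (Real.sqrt_nonneg _)
  have h7 : Real.sqrt 6 * (Real.sqrt J)⁻¹ * N = (Real.sqrt 6 * N) / Real.sqrt J := by
    rw [div_eq_mul_inv]; ring
  rw [h7, le_div_iff₀ hsJ]
  exact key

/-- The sensitivity of a gate at the planted place `e0`. -/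
theorem sens (g : ι → V → ℝ) (θ : ℝ) (E : Finset ι) (hE : E.card ≤ 5) (e0 : ι) (he0 : e0 ∈ E)
    (z z' : ι → V) (hz : ∀ e ∈ E, e ≠ e0 → z e = z' e) :
    (((univ : Finset (ι → V)).filter fun w =>
      ¬ (θ ≤ ∑ e, g e (if e ∈ E then z e else w e) ↔
        θ ≤ ∑ e, g e (if e ∈ E then z' e else w e))).card : ℝ) ≤
      Real.sqrt 6 * infl g e0 (z e0) (z' e0) * (Fintype.card V : ℝ) ^ (Fintype.card ι) := by
  classical
  have hsplit : ∀ (y : ι → V) (w : ι → V), ∑ e, g e (if e ∈ E then y e else w e) =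
      ∑ e ∈ E, g e (y e) + ∑ e, (if e ∈ E then 0 else g e (w e)) := by
    intro y w
    have h1 : ∀ e, g e (if e ∈ E then y e else w e) =
        (if e ∈ E then g e (y e) else 0) + (if e ∈ E then 0 else g e (w e)) := by
      intro e
      by_cases h : e ∈ E <;> simp [h]
    simp_rw [h1]
    rw [sum_add_distrib, sum_ite_mem, univ_inter]
  have hdiff : ∑ e ∈ E, g e (z' e) - ∑ e ∈ E, g e (z e) = g e0 (z' e0) - g e0 (z e0) := by
    rw [← sum_sub_distrib, ← add_sum_erase E _ he0]
    have : ∑ x ∈ E.erase e0, (g x (z' x) - g x (z x)) = 0 := by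
      refine sum_eq_zero fun x hx => ?_
      rw [hz x (mem_of_mem_erase hx) (ne_of_mem_erase hx), sub_self]
    rw [this, add_zero]
  set A := ∑ e ∈ E, g e (z e) with hA
  set A' := ∑ e ∈ E, g e (z' e) with hA'
  simp_rw [hsplit]
  rcases lt_trichotomy A A' with h | h | h
  · refine le_trans (Nat.cast_le.2 (card_le_card ?_)) (sens_aux g θ E hE e0 A A' (z e0) (z' e0) hdiff h)
    intro w hw
    simp only [mem_filter, mem_univ, true_and] at hw ⊢
    rw [← hA, ← hA'] at hw
    by_contra hcon
    apply hw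
    constructor
    · intro h1; linarith
    · intro h1
      by_contra h2
      exact hcon ⟨h1, not_le.1 h2⟩
  · have : ((univ : Finset (ι → V)).filter fun w =>
      ¬ (θ ≤ ∑ e ∈ E, g e (z e) + ∑ e, (if e ∈ E then 0 else g e (w e)) ↔
        θ ≤ ∑ e ∈ E, g e (z' e) + ∑ e, (if e ∈ E then 0 else g e (w e)))) = ∅ := by
      refine filter_eq_empty_iff.2 fun w _ => ?_
      rw [← hA, ← hA', h, not_not]
    rw [this, card_empty, Nat.cast_zero]
    have := infl_nonneg g e0 (z e0) (z' e0)
    positivity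
  · have hdiff' : A - A' = g e0 (z e0) - g e0 (z' e0) := by linarith
    rw [infl_comm]
    refine le_trans (Nat.cast_le.2 (card_le_card ?_))
      (sens_aux g θ E hE e0 A' A (z' e0) (z e0) hdiff' h)
    intro w hw
    simp only [mem_filter, mem_univ, true_and] at hw ⊢
    rw [← hA, ← hA'] at hw
    by_contra hcon
    apply hw
    constructor
    · intro h1
      by_contra h2
      exact hcon ⟨h1, not_le.1 h2⟩
    · intro h1; linarith

end Pool.Agent.Helper5.UV
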