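import Pool.Agent.Helper8.UV.GateOne
import Pool.Agent.Helper5.UV.Sens

/-!
# Juntas of additive threshold gates on a random box

If a function of additive threshold gates has a mixed third difference on the box, then in each of
the three directions some gate is sensitive at some vertex of the box.
-/

set_option autoImplicit false

open Finset
open scoped BigOperators

namespace Pool.Agent.Helper5.UV

open Pool.Agent.Helper8.VT Pool.Agent.Helper8.UV

section

variable {ι V : Type} [Fintype ι] [DecidableEq ι] [Fintype V] [Nonempty V]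

open Classical in
theorem sens_E (g : ι → V → ℝ) (θ : ℝ) (E : Finset ι) (hE : E.card ≤ 5) (e0 : ι)
    (α β : ℝ) (u u' : V) (h : α - β = g e0 u - g e0 u') :
    (𝔼 w : ι → V, (if ¬ (θ ≤ α + ∑ e, (if e ∈ E then 0 else g e (w e)) ↔
      θ ≤ β + ∑ e, (if e ∈ E then 0 else g e (w e))) then (1 : ℝ) else 0)) ≤
      Real.sqrt 6 * infl g e0 u u' := by
  have hN : (0 : ℝ) < (Fintype.card (ι → V) : ℝ) := by
    exact_mod_cast Fintype.card_pos
  rw [Fintype.expect_eq_sum_div_card, div_le_iff₀ hN, ← Finset.sum_filter, sum_const,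
    nsmul_eq_mul, mul_one, Fintype.card_fun]
  push_cast
  rcases lt_trichotomy α β with hl | hl | hl
  · have h' : β - α = g e0 u' - g e0 u := by linarith
    refine le_trans (Nat.cast_le.2 (card_le_card ?_)) (sens_aux g θ E hE e0 α β u u' h' hl)
    intro w hw
    simp only [mem_filter, mem_univ, true_and] at hw ⊢
    by_contra hcon
    apply hw
    constructor
    · intro h1; linarith
    · intro h1
      by_contra h2
      exact hcon ⟨h1, not_le.1 h2⟩
  · have : ((univ : Finset (ι → V)).filter fun w =>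
      ¬ (θ ≤ α + ∑ e, (if e ∈ E then 0 else g e (w e)) ↔
        θ ≤ β + ∑ e, (if e ∈ E then 0 else g e (w e)))) = ∅ := by
      refine filter_eq_empty_iff.2 fun w _ => ?_
      rw [hl, not_not]
    rw [this, card_empty, Nat.cast_zero]
    have := infl_nonneg g e0 u u'
    positivity
  · rw [infl_comm]
    refine le_trans (Nat.cast_le.2 (card_le_card ?_)) (sens_aux g θ E hE e0 β α u' u h hl)
    intro w hw
    simp only [mem_filter, mem_univ, true_and] at hw ⊢
    by_contra hcon
    apply hw
    constructor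
    · intro h1
      by_contra h2
      exact hcon ⟨h1, not_le.1 h2⟩
    · intro h1; linarith

end

section

variable {m Q : ℕ} [NeZero Q] {ι : Type} [Fintype ι]

theorem card_planted (i j k k' : Fin m) :
    (univ.filter fun v : Key m => planted i j k k' v).card ≤ 5 := by
  have h : (univ.filter fun v : Key m => planted i j k k' v) ⊆
      {(0, (i, j)), (1, (j, k)), (1, (j, k')), (2, (k, i)), (2, (k', i))} := by
    intro v hv
    simp only [mem_filter, mem_univ, true_and, planted] at hv
    simp only [mem_insert, mem_singleton]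
    exact hv
  refine (card_le_card h).trans ?_
  refine (card_insert_le _ _).trans (Nat.succ_le_succ ?_)
  refine (card_insert_le _ _).trans (Nat.succ_le_succ ?_)
  refine (card_insert_le _ _).trans (Nat.succ_le_succ ?_)
  refine (card_insert_le _ _).trans (Nat.succ_le_succ ?_)
  exact (card_singleton _).le

open Classical in
theorem sens_key (f : Key m → ZMod Q → ℝ) (θ : ℝ) (i j k k' : Fin m) (e0 : Key m)
    (α β : ℝ) (u u' : ZMod Q) (h : α - β = f e0 u - f e0 u') :
    (𝔼 X : Cfg m Q, 𝔼 Y : Cfg m Q, 𝔼 Z : Cfg m Q,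
      (if ¬ (θ ≤ α + ∑ v, rest f i j k k' v (wk X Y Z v) ↔
        θ ≤ β + ∑ v, rest f i j k k' v (wk X Y Z v)) then (1 : ℝ) else 0)) ≤
      Real.sqrt 6 * infl f e0 u u' := by
  rw [expect_wk (fun w => if ¬ (θ ≤ α + ∑ v, rest f i j k k' v (w v) ↔
        θ ≤ β + ∑ v, rest f i j k k' v (w v)) then (1 : ℝ) else 0)]
  have h1 := sens_E f θ (univ.filter fun v : Key m => planted i j k k' v)
    (card_planted i j k k') e0 α β u u' h
  refine le_trans (le_of_eq ?_) h1
  refine Finset.expect_congr rfl fun w _ => ?_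
  have h2 : ∀ v, rest f i j k k' v (w v) =
      if v ∈ (univ.filter fun v : Key m => planted i j k k' v) then 0 else f v (w v) := by
    intro v
    unfold rest
    simp only [mem_filter, mem_univ, true_and]
  simp only [h2]

open Classical in
/-- One direction. -/
theorem direction (f : ι → Key m → ZMod Q → ℝ) (θ : ι → ℝ) (i j k k' : Fin m) (e0 : Key m)
    (u u' : ZMod Q) (P : Cfg m Q → Cfg m Q → Cfg m Q → Prop)
    (α β : ι → Bool × Bool × Bool × Bool → ℝ)
    (hd : ∀ s c, α s c - β s c = f s e0 u - f s e0 u')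
    (hP : ∀ X Y Z, P X Y Z → ∃ s c,
      ¬ (θ s ≤ α s c + ∑ v, rest (f s) i j k k' v (wk X Y Z v) ↔
        θ s ≤ β s c + ∑ v, rest (f s) i j k k' v (wk X Y Z v))) :
    (𝔼 X : Cfg m Q, 𝔼 Y : Cfg m Q, 𝔼 Z : Cfg m Q, (if P X Y Z then (1 : ℝ) else 0)) ≤
      16 * Real.sqrt 6 * ∑ s, infl (f s) e0 u u' := by
  have h1 : (𝔼 X : Cfg m Q, 𝔼 Y : Cfg m Q, 𝔼 Z : Cfg m Q, (if P X Y Z then (1 : ℝ) else 0)) ≤
      𝔼 X : Cfg m Q, 𝔼 Y : Cfg m Q, 𝔼 Z : Cfg m Q, ∑ s, ∑ c,
        (if ¬ (θ s ≤ α s c + ∑ v, rest (f s) i j k k' v (wk X Y Z v) ↔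
          θ s ≤ β s c + ∑ v, rest (f s) i j k k' v (wk X Y Z v)) then (1 : ℝ) else 0) := by
    refine Finset.expect_le_expect fun X _ => Finset.expect_le_expect fun Y _ =>
      Finset.expect_le_expect fun Z _ => ?_
    have hnn : ∀ s c, (0 : ℝ) ≤ (if ¬ (θ s ≤ α s c + ∑ v, rest (f s) i j k k' v (wk X Y Z v) ↔
          θ s ≤ β s c + ∑ v, rest (f s) i j k k' v (wk X Y Z v)) then (1 : ℝ) else 0) := by
      intro s c; split <;> norm_num
    by_cases hp : P X Y Z
    · obtain ⟨s, c, hsc⟩ := hP X Y Z hp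
      rw [if_pos hp]
      refine le_trans ?_ (single_le_sum (fun s _ => sum_nonneg fun c _ => hnn s c) (mem_univ s))
      refine le_trans ?_ (single_le_sum (fun c _ => hnn s c) (mem_univ c))
      rw [if_pos hsc]
    · rw [if_neg hp]
      exact sum_nonneg fun s _ => sum_nonneg fun c _ => hnn s c
  refine h1.trans ?_
  simp only [Finset.expect_sum_comm]
  calc ∑ s, ∑ c : Bool × Bool × Bool × Bool, 𝔼 X : Cfg m Q, 𝔼 Y : Cfg m Q, 𝔼 Z : Cfg m Q,
        (if ¬ (θ s ≤ α s c + ∑ v, rest (f s) i j k k' v (wk X Y Z v) ↔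
          θ s ≤ β s c + ∑ v, rest (f s) i j k k' v (wk X Y Z v)) then (1 : ℝ) else 0)
      ≤ ∑ s, ∑ _c : Bool × Bool × Bool × Bool, Real.sqrt 6 * infl (f s) e0 u u' :=
        sum_le_sum fun s _ => sum_le_sum fun c _ =>
          sens_key (f s) (θ s) i j k k' e0 (α s c) (β s c) u u' (hd s c)
    _ = 16 * Real.sqrt 6 * ∑ s, infl (f s) e0 u u' := by
        simp only [sum_const, card_univ, Fintype.card_prod, Fintype.card_bool, nsmul_eq_mul]
        rw [mul_sum]
        refine sum_congr rfl fun s _ => ?_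
        push_cast
        ring

open Classical in
/-- The probability of a mixed third difference for a fixed box. -/
theorem junta_ev (f : ι → Key m → ZMod Q → ℝ) (θ : ι → ℝ) (F : (ι → Bool) → ℝ)
    (G : Cfg m Q → Cfg m Q → Cfg m Q → ℝ)
    (hG : ∀ X Y Z, G X Y Z = F (fun s => decide (θ s ≤ ∑ v, f s v (wk X Y Z v))))
    (i j k k' : Fin m) (hk : k ≠ k') (x a a' : Bool → ZMod Q) :
    (𝔼 X : Cfg m Q, 𝔼 Y : Cfg m Q, 𝔼 Z : Cfg m Q,
      (if ev G i j k k' X Y Z x a a' then (1 : ℝ) else 0)) ≤
        16 * Real.sqrt 6 * ∑ s, infl (f s) (0, (i, j)) (x true) (x false) ∧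
    (𝔼 X : Cfg m Q, 𝔼 Y : Cfg m Q, 𝔼 Z : Cfg m Q,
      (if ev G i j k k' X Y Z x a a' then (1 : ℝ) else 0)) ≤
        16 * Real.sqrt 6 * ∑ s, infl (f s) (1, (j, k)) (a true) (a false) ∧
    (𝔼 X : Cfg m Q, 𝔼 Y : Cfg m Q, 𝔼 Z : Cfg m Q,
      (if ev G i j k k' X Y Z x a a' then (1 : ℝ) else 0)) ≤
        16 * Real.sqrt 6 * ∑ s, infl (f s) (2, (k, i)) (vb x a true) (vb x a false) := by
  have hval : ∀ X Y Z u v w u' v', F5 G i j k k' X Y Z u v w u' v' =
      F (fun s => decide (θ s ≤ (∑ y, rest (f s) i j k k' y (wk X Y Z y) +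
        f s (1, (j, k')) u' + f s (2, (k', i)) v') +
        f s (0, (i, j)) u + f s (1, (j, k)) v + f s (2, (k, i)) w)) := by
    intro X Y Z u v w u' v'
    unfold F5
    rw [hG]
    congr 1
    funext s
    rw [sum_split (f s) i j k k' hk X Y Z u v w u' v']
  have hne : ∀ (A B : ι → ℝ), F (fun s => decide (θ s ≤ A s)) ≠ F (fun s => decide (θ s ≤ B s)) →
      ∃ s, ¬ (θ s ≤ A s ↔ θ s ≤ B s) := by
    intro A B hAB
    by_contra hcon
    push Not at hcon
    apply hAB
    congr 1
    funext s
    exact decide_eq_decide.2 (hcon s)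
  refine ⟨?_, ?_, ?_⟩
  · refine direction f θ i j k k' (0, (i, j)) (x true) (x false) _
      (fun s c => f s (1, (j, k')) (a' c.1) + f s (2, (k', i)) (vb' x a' c.2.1) +
        f s (0, (i, j)) (x true) + f s (1, (j, k)) (a c.2.2.1) + f s (2, (k, i)) (vb x a c.2.2.2))
      (fun s c => f s (1, (j, k')) (a' c.1) + f s (2, (k', i)) (vb' x a' c.2.1) +
        f s (0, (i, j)) (x false) + f s (1, (j, k)) (a c.2.2.1) + f s (2, (k, i)) (vb x a c.2.2.2))
      (fun s c => by ring) ?_
    intro X Y Z hev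
    obtain ⟨σ, τ, hD⟩ := hev
    by_contra hcon
    apply hD
    apply D3_zero_x
    intro q r
    by_contra hF
    rw [hval, hval] at hF
    obtain ⟨s, hs⟩ := hne _ _ hF
    apply hcon
    refine ⟨s, (σ, τ, q, r), ?_⟩
    intro h
    apply hs
    constructor
    · intro h1
      have := h.1 (by simp only; linarith)
      simp only at this; linarith
    · intro h1
      have := h.2 (by simp only; linarith)
      simp only at this; linarith
  · refine direction f θ i j k k' (1, (j, k)) (a true) (a false) _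
      (fun s c => f s (1, (j, k')) (a' c.1) + f s (2, (k', i)) (vb' x a' c.2.1) +
        f s (0, (i, j)) (x c.2.2.1) + f s (1, (j, k)) (a true) + f s (2, (k, i)) (vb x a c.2.2.2))
      (fun s c => f s (1, (j, k')) (a' c.1) + f s (2, (k', i)) (vb' x a' c.2.1) +
        f s (0, (i, j)) (x c.2.2.1) + f s (1, (j, k)) (a false) + f s (2, (k, i)) (vb x a c.2.2.2))
      (fun s c => by ring) ?_
    intro X Y Z hev
    obtain ⟨σ, τ, hD⟩ := hev
    by_contra hcon
    apply hD
    apply D3_zero_a
    intro q r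
    by_contra hF
    rw [hval, hval] at hF
    obtain ⟨s, hs⟩ := hne _ _ hF
    apply hcon
    refine ⟨s, (σ, τ, q, r), ?_⟩
    intro h
    apply hs
    constructor
    · intro h1
      have := h.1 (by simp only; linarith)
      simp only at this; linarith
    · intro h1
      have := h.2 (by simp only; linarith)
      simp only at this; linarith
  · refine direction f θ i j k k' (2, (k, i)) (vb x a true) (vb x a false) _
      (fun s c => f s (1, (j, k')) (a' c.1) + f s (2, (k', i)) (vb' x a' c.2.1) +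
        f s (0, (i, j)) (x c.2.2.1) + f s (1, (j, k)) (a c.2.2.2) + f s (2, (k, i)) (vb x a true))
      (fun s c => f s (1, (j, k')) (a' c.1) + f s (2, (k', i)) (vb' x a' c.2.1) +
        f s (0, (i, j)) (x c.2.2.1) + f s (1, (j, k)) (a c.2.2.2) + f s (2, (k, i)) (vb x a false))
      (fun s c => by ring) ?_
    intro X Y Z hev
    obtain ⟨σ, τ, hD⟩ := hev
    by_contra hcon
    apply hD
    apply D3_zero_b
    intro q r
    by_contra hF
    rw [hval, hval] at hF
    obtain ⟨s, hs⟩ := hne _ _ hF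
    apply hcon
    refine ⟨s, (σ, τ, q, r), ?_⟩
    intro h
    apply hs
    constructor
    · intro h1
      have := h.1 (by simp only; linarith)
      simp only at this; linarith
    · intro h1
      have := h.2 (by simp only; linarith)
      simp only at this; linarith

end

end Pool.Agent.Helper5.UV
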