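import Mathlib

/-!
# The final arithmetic
-/

set_option autoImplicit false

namespace Pool.Agent.Helper5.UV

/-- Small `m`. -/
theorem numeric_small (n : ℕ) (avg : ℝ) (hm : n / 9 < 2) (havg : 19 / 20 ≤ avg) :
    (n : ℝ) ^ 3 ≤ 2 ^ 24 * avg := by
  have h1 : n ≤ 17 := by omega
  have h2 : (n : ℝ) ≤ 17 := by exact_mod_cast h1
  have h3 : (n : ℝ) ^ 3 ≤ 17 ^ 3 := pow_le_pow_left₀ (Nat.cast_nonneg n) h2 3
  norm_num at h3 ⊢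
  linarith

/-- The main case. -/
theorem numeric_main (n m Q : ℕ) (avg : ℝ) (hmn : m = n / 9) (hm : 2 ≤ m) (hQ : n ^ 5 ≤ Q)
    (havg : 0 ≤ avg)
    (h : (m : ℝ) ^ 3 * ((m : ℝ) - 1) * (1 / 5 - 8 * (m : ℝ) ^ 3 / (Q : ℝ)) ≤
      2 * (192 * (m : ℝ) * avg)) :
    (n : ℝ) ^ 3 ≤ 2 ^ 24 * avg := by
  have hn : n ≤ 9 * m + 8 := by omega
  have hn2 : 9 * m ≤ n := by omega
  have hm' : (2 : ℝ) ≤ m := by exact_mod_cast hm
  have hm0 : (0 : ℝ) < m := by linarith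
  have hn' : (n : ℝ) ≤ 9 * m + 8 := by exact_mod_cast hn
  have hn2' : 9 * (m : ℝ) ≤ n := by exact_mod_cast hn2
  have hn0 : (0 : ℝ) ≤ n := Nat.cast_nonneg n
  have hQ' : (n : ℝ) ^ 5 ≤ Q := by exact_mod_cast hQ
  have hnpos : (0 : ℝ) < n := by linarith
  have hQ0 : (0 : ℝ) < Q := lt_of_lt_of_le (by positivity) hQ'
  -- the error term is small
  have herr : 8 * (m : ℝ) ^ 3 / (Q : ℝ) ≤ 1 / 100 := by
    rw [div_le_iff₀ hQ0]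
    have h1 : (m : ℝ) ^ 3 ≤ (n : ℝ) ^ 3 / 729 := by
      have : (9 * (m : ℝ)) ^ 3 ≤ (n : ℝ) ^ 3 := pow_le_pow_left₀ (by positivity) hn2' 3
      have h2 : (9 * (m : ℝ)) ^ 3 = 729 * (m : ℝ) ^ 3 := by ring
      rw [h2] at this
      linarith
    have h18 : (18 : ℝ) ≤ n := by linarith
    have h3 : (n : ℝ) ^ 3 * 324 ≤ (n : ℝ) ^ 5 := by
      have h4 : (324 : ℝ) ≤ (n : ℝ) ^ 2 := by nlinarith
      calc (n : ℝ) ^ 3 * 324 ≤ (n : ℝ) ^ 3 * (n : ℝ) ^ 2 :=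
            mul_le_mul_of_nonneg_left h4 (by positivity)
        _ = (n : ℝ) ^ 5 := by ring
    have h5 : 0 ≤ (n : ℝ) ^ 3 := by positivity
    nlinarith
  have h1 : (m : ℝ) ^ 3 * ((m : ℝ) - 1) * (19 / 100) ≤ 2 * (192 * (m : ℝ) * avg) := by
    refine le_trans ?_ h
    refine mul_le_mul_of_nonneg_left (by linarith) ?_
    have : 0 ≤ (m : ℝ) - 1 := by linarith
    positivity
  have h2 : (m : ℝ) ^ 2 * ((m : ℝ) - 1) * (19 / 100) ≤ 384 * avg := by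
    have h3 : (m : ℝ) * ((m : ℝ) ^ 2 * ((m : ℝ) - 1) * (19 / 100)) ≤ (m : ℝ) * (384 * avg) := by
      calc (m : ℝ) * ((m : ℝ) ^ 2 * ((m : ℝ) - 1) * (19 / 100))
          = (m : ℝ) ^ 3 * ((m : ℝ) - 1) * (19 / 100) := by ring
        _ ≤ 2 * (192 * (m : ℝ) * avg) := h1
        _ = (m : ℝ) * (384 * avg) := by ring
    exact le_of_mul_le_mul_left h3 hm0
  -- (9 m + 8)^3 <= 4394 m^2 (m - 1)
  have h4 : (9 * (m : ℝ) + 8) ^ 3 ≤ 4394 * ((m : ℝ) ^ 2 * ((m : ℝ) - 1)) := by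
    obtain ⟨t, ht⟩ : ∃ t : ℝ, (m : ℝ) = 2 + t := ⟨(m : ℝ) - 2, by ring⟩
    have ht0 : 0 ≤ t := by linarith
    rw [ht]
    nlinarith [mul_nonneg ht0 ht0, mul_nonneg (mul_nonneg ht0 ht0) ht0]
  have h5 : (n : ℝ) ^ 3 ≤ (9 * (m : ℝ) + 8) ^ 3 := pow_le_pow_left₀ hn0 hn' 3
  have h6 : (m : ℝ) ^ 2 * ((m : ℝ) - 1) ≤ 384 * 100 / 19 * avg := by linarith
  calc (n : ℝ) ^ 3 ≤ 4394 * ((m : ℝ) ^ 2 * ((m : ℝ) - 1)) := h5.trans h4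
    _ ≤ 4394 * (384 * 100 / 19 * avg) := mul_le_mul_of_nonneg_left h6 (by norm_num)
    _ ≤ 2 ^ 24 * avg := by
        have : (4394 : ℝ) * (384 * 100 / 19) ≤ 2 ^ 24 := by norm_num
        calc (4394 : ℝ) * (384 * 100 / 19 * avg) = (4394 * (384 * 100 / 19)) * avg := by ring
          _ ≤ 2 ^ 24 * avg := mul_le_mul_of_nonneg_right this havg

theorem pow_299 (n : ℕ) (hn : 1 ≤ n) : n ^ 5 ≤ n ^ 299 := Nat.pow_le_pow_right hn (by norm_num)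

end Pool.Agent.Helper5.UV
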