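import Pool.Agent.Helper8.UV.Statement
import Pool.Agent.Helper8.VT.UpperL

/-!
# Threshold circuits with unbounded weights: the upper bounds

Two weighted threshold gates of fan-in three for every triple of vertices, and readers with `B`
probes for the blocks, for every `B`.
-/

set_option autoImplicit false

open Finset
open scoped BigOperators

namespace Pool.Agent.Helper5.UV

open Pool.Agent.Helper22.ETModel Pool.Agent.Helper8.VT Pool.Agent.Helper8.UV

/-- The triple consists of three different vertices that are pairwise adjacent. -/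
def TriOK {n : ℕ} (f : Flags n) (i j k : Fin n) : Prop :=
  i ≠ j ∧ j ≠ k ∧ i ≠ k ∧ f i j = true ∧ f j k = true ∧ f i k = true

open Classical in
/-- The two gates of a triple of vertices: `[s ≥ 0]` with weight `1` and `[s ≥ 1]` with
weight `-1`, where `s` is the sum of the weights of the triangle; both are zero if the triple is no
triangle. -/
noncomputable def triGate {n : ℕ} (i j k : Fin n) (c : Bool) (I : Inst n) : ℝ :=
  if TriOK I.flag i j k then
    if c = true then
      (if (1 : ℤ) ≤ I.wt i j + I.wt j k + I.wt i k then -1 else 0)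
    else
      (if (0 : ℤ) ≤ I.wt i j + I.wt j k + I.wt i k then 1 else 0)
  else 0

theorem isJunta_triGate {n : ℕ} (i j k : Fin n) (c : Bool) : IsJunta 1 3 (triGate i j k c) := by
  classical
  refine ⟨fun _ _ => {(i, j), (j, k), (i, k)}, fun _ _ _ z => (z : ℝ),
    fun _ _ => if c = true then 1 else 0,
    fun f ε => if TriOK f i j k then (if ε 0 = true then (if c = true then -1 else 1) else 0) else 0,
    fun _ => ?_, fun I _ => ?_⟩
  · rw [Fin.sum_univ_one]
    exact (card_insert_le _ _).trans (Nat.succ_le_succ ((card_insert_le _ _).trans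
      (Nat.succ_le_succ (card_singleton _).le)))
  · unfold triGate
    by_cases hT : TriOK I.flag i j k
    · obtain ⟨h1, h2, h3, -, -, -⟩ := id hT
      have hsum : ∑ p ∈ ({(i, j), (j, k), (i, k)} : Finset (Fin n × Fin n)),
          ((I.wt p.1 p.2 : ℤ) : ℝ) = ((I.wt i j + I.wt j k + I.wt i k : ℤ) : ℝ) := by
        rw [sum_insert, sum_insert, sum_singleton]
        · push_cast; ring
        · simp only [mem_singleton, Prod.mk.injEq, not_and]
          intro h; exact absurd h.symm h1
        · simp only [mem_insert, mem_singleton, Prod.mk.injEq, not_or, not_and]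
          exact ⟨fun h => absurd h h1, fun _ => h2⟩
      simp only [hT, if_true, hsum, decide_eq_true_eq]
      cases c
      · simp only [Bool.false_eq_true, if_false]
        by_cases h : (0 : ℤ) ≤ I.wt i j + I.wt j k + I.wt i k
        · rw [if_pos h, if_pos (by exact_mod_cast h)]
        · rw [if_neg h, if_neg (by exact_mod_cast h)]
      · simp only [if_true]
        by_cases h : (1 : ℤ) ≤ I.wt i j + I.wt j k + I.wt i k
        · rw [if_pos h, if_pos (by exact_mod_cast h)]
        · rw [if_neg h, if_neg (by exact_mod_cast h)]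
    · simp only [hT, if_false]

/-- The two gates of a triple together: the indicator of a zero triangle. -/
theorem triGate_add {n : ℕ} (i j k : Fin n) (I : Inst n) :
    triGate i j k true I + triGate i j k false I = 1 ∧
      (TriOK I.flag i j k ∧ I.wt i j + I.wt j k + I.wt i k = 0) ∨
    triGate i j k true I + triGate i j k false I = 0 ∧
      ¬ (TriOK I.flag i j k ∧ I.wt i j + I.wt j k + I.wt i k = 0) := by
  classical
  unfold triGate
  by_cases hT : TriOK I.flag i j k
  · simp only [hT, if_true, Bool.false_eq_true, if_false, true_and]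
    rcases lt_trichotomy (I.wt i j + I.wt j k + I.wt i k) 0 with h | h | h
    · right
      rw [if_neg (by omega), if_neg (by omega)]
      exact ⟨by norm_num, by omega⟩
    · left
      rw [if_neg (by omega), if_pos (by omega)]
      exact ⟨by norm_num, h⟩
    · right
      rw [if_pos (by omega), if_pos (by omega)]
      exact ⟨by norm_num, by omega⟩
  · right
    simp only [hT, if_false, false_and, not_false_iff, and_true]
    norm_num

/-- Two gates of fan-in three per triple of vertices decide Exact Triangle. -/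
theorem upper_gates (n : ℕ) :
    ∃ H : Fin (2 * n ^ 3) → Inst n → ℝ, (∀ r, IsJunta 1 3 (H r)) ∧
      ∀ I : Inst n, 0 < ∑ r, H r I ↔ I.Yes := by
  classical
  have hcard : Fintype.card ((Fin n × Fin n × Fin n) × Bool) = 2 * n ^ 3 := by
    simp only [Fintype.card_prod, Fintype.card_fin, Fintype.card_bool]; ring
  let e : (Fin n × Fin n × Fin n) × Bool ≃ Fin (2 * n ^ 3) := Fintype.equivFinOfCardEq hcard
  refine ⟨fun r => triGate (e.symm r).1.1 (e.symm r).1.2.1 (e.symm r).1.2.2 (e.symm r).2,
    fun r => isJunta_triGate _ _ _ _, fun I => ?_⟩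
  have hsum : ∑ r : Fin (2 * n ^ 3),
      triGate (e.symm r).1.1 (e.symm r).1.2.1 (e.symm r).1.2.2 (e.symm r).2 I =
      ∑ t : Fin n × Fin n × Fin n,
        (triGate t.1 t.2.1 t.2.2 true I + triGate t.1 t.2.1 t.2.2 false I) := by
    rw [Equiv.sum_comp e.symm (fun p => triGate p.1.1 p.1.2.1 p.1.2.2 p.2 I),
      Fintype.sum_prod_type]
    refine sum_congr rfl fun t _ => ?_
    rw [Fintype.sum_bool]
  rw [hsum]
  have hnn : ∀ t ∈ (univ : Finset (Fin n × Fin n × Fin n)),
      0 ≤ triGate t.1 t.2.1 t.2.2 true I + triGate t.1 t.2.1 t.2.2 false I := by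
    intro t _
    rcases triGate_add t.1 t.2.1 t.2.2 I with h | h
    · rw [h.1]; norm_num
    · rw [h.1]
  constructor
  · intro hpos
    obtain ⟨t, -, ht⟩ := (sum_pos_iff_of_nonneg hnn).1 hpos
    rcases triGate_add t.1 t.2.1 t.2.2 I with h | h
    · obtain ⟨-, ⟨h1, h2, h3, h4, h5, h6⟩, h7⟩ := h
      exact ⟨t.1, t.2.1, t.2.2, h1, h2, h3, h4, h5, h6, h7⟩
    · rw [h.1] at ht; exact absurd ht (lt_irrefl _)
  · rintro ⟨i, j, k, h1, h2, h3, h4, h5, h6, h7⟩
    refine (sum_pos_iff_of_nonneg hnn).2 ⟨(i, j, k), mem_univ _, ?_⟩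
    rcases triGate_add i j k I with h | h
    · change 0 < triGate i j k true I + triGate i j k false I
      rw [h.1]; norm_num
    · exact absurd ⟨⟨h1, h2, h3, h4, h5, h6⟩, h7⟩ h.2

/-- For every `B`, blocks of weights read by readers with `B` probes decide Exact Triangle. -/
theorem upper_readers (n B : ℕ) (hB : 3 ≤ B) (hBn : B ≤ n ^ 2) :
    ∃ (N : ℕ) (H : Fin N → Inst n → ℝ), (N : ℝ) * (B : ℝ) ^ (3 / 2 : ℝ) ≤ 2 ^ 9 * (n : ℝ) ^ 3 ∧
      (∀ r, IsProbe B (H r)) ∧ ∀ I : Inst n, 0 < ∑ r, H r I ↔ I.Yes := by
  obtain ⟨N, H, hN, hH, h01, hyes⟩ := upper n B hB hBn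
  refine ⟨N, H, hN, fun r => (hH r).1, fun I => ?_⟩
  have hnn : ∀ r ∈ (univ : Finset (Fin N)), 0 ≤ H r I := by
    intro r _
    rcases h01 r I with h | h
    · rw [h]
    · rw [h]; norm_num
  rw [hyes I, sum_pos_iff_of_nonneg hnn]
  constructor
  · rintro ⟨r, -, hr⟩
    refine ⟨r, ?_⟩
    rcases h01 r I with h | h
    · rw [h] at hr; exact absurd hr (lt_irrefl _)
    · exact h
  · rintro ⟨r, hr⟩
    exact ⟨r, mem_univ _, by rw [hr]; norm_num⟩

theorem readerStatement : ReaderStatement := fun n B hB hBn => upper_readers n B hB hBn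

theorem gateStatement : GateStatement := fun n => by
  obtain ⟨H, hH, hdec⟩ := upper_gates n
  exact ⟨2 * n ^ 3, H, le_rfl, hH, hdec⟩

end Pool.Agent.Helper5.UV
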